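import Mathlib

/-! # Cancellation in free groups

`exists_cancel`: induction on `u` (or: take the longest prefix of `u` whose `invRev` is a suffix of
`R.toWord`). Let `R.toWord = R₁`, `u = q :: u'`. If `R₁ = R₂ ++ [(q.1, !q.2)]`, then apply the
induction hypothesis to `FreeGroup.mk R₂` (`R₂` is reduced, so it is its own `toWord`) and `u'` and
add 1 to `i₀`. Otherwise `R₁ ++ u` is reduced and `i₀ = 0`. If `u = []` then `i₀ = 0`.

`exists_decomp`: `exists_cancel` with `R = α`, `u = β.toWord`; `p = R'`, `g = invRev (u.take i₀)`,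
`q = u.drop i₀`; `α * β = mk (p ++ q)` and `p ++ q` is reduced (`FreeGroup.IsReduced.reduce_eq`).

`toWord_take`: the reduced word of `R * mk (u.take i)`: for `i ≥ i₀` it is
`R' ++ (u.take i).drop i₀`, for `i ≤ i₀` it is `R' ++ invRev ((u.take i₀).drop i)` (a prefix of
`R.toWord`, as `invRev (u.take i₀) = invRev ((u.take i₀).drop i) ++ invRev (u.take i)`). -/

set_option autoImplicit false

namespace Pool.MP_ed1a61_al.Irr

private theorem Canc_sub {α : Type} {L₁ L₂ : List (α × Bool)} (h : FreeGroup.IsReduced L₂)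
    (h' : L₁ <:+: L₂) : FreeGroup.IsReduced L₁ := by
  obtain ⟨s, t, rfl⟩ := h'
  exact List.IsChain.right_of_append (List.IsChain.left_of_append h)

variable {X : Type}

private theorem exists_cancel_list [DecidableEq X] (u : List (X × Bool)) :
    ∀ R : List (X × Bool), FreeGroup.IsReduced R → FreeGroup.IsReduced u →
    ∃ i₀ ≤ u.length, ∃ R' : List (X × Bool),
      R = R' ++ FreeGroup.invRev (u.take i₀) ∧ FreeGroup.IsReduced (R' ++ u.drop i₀) := by
  induction u with
  | nil =>
    intro R hR _
    exact ⟨0, le_refl _, R, by simp, by simpa using hR⟩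
  | cons q u' ih =>
    intro R hR hu
    rcases List.eq_nil_or_concat R with rfl | ⟨R₂, x, rfl⟩
    · exact ⟨0, Nat.zero_le _, [], by simp, by simpa using hu⟩
    · rw [List.concat_eq_append] at *
      by_cases hx : x = (q.1, !q.2)
      · have hR₂ : FreeGroup.IsReduced R₂ := Canc_sub hR (List.prefix_append _ _).isInfix
        have hu' : FreeGroup.IsReduced u' := Canc_sub hu (List.suffix_cons _ _).isInfix
        obtain ⟨i, hi, R', h1, h2⟩ := ih R₂ hR₂ hu'
        refine ⟨i + 1, by simpa using hi, R', ?_, by simpa using h2⟩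
        rw [List.take_succ_cons, FreeGroup.invRev_cons, ← List.append_assoc, ← h1, hx]
        simp [FreeGroup.invRev]
      · refine ⟨0, Nat.zero_le _, R₂ ++ [x], by simp, ?_⟩
        rw [List.drop_zero, show R₂ ++ [x] ++ q :: u' = R₂ ++ [x] ++ (q :: u') from rfl]
        refine FreeGroup.IsReduced.append_overlap hR ?_ (by simp)
        rw [List.singleton_append, FreeGroup.isReduced_cons_cons]
        refine ⟨fun h => ?_, hu⟩
        by_contra h'
        apply hx
        refine Prod.ext h ?_
        cases hx2 : x.2 <;> cases hq2 : q.2 <;> simp_all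

private theorem toWord_mk_of_isReduced [DecidableEq X] {L : List (X × Bool)}
    (h : FreeGroup.IsReduced L) : (FreeGroup.mk L).toWord = L := by
  rw [FreeGroup.toWord_mk, h.reduce_eq]

theorem exists_cancel [DecidableEq X] (R : FreeGroup X) (u : List (X × Bool))
    (hu : FreeGroup.IsReduced u) :
    ∃ i₀ ≤ u.length, ∃ R' : List (X × Bool),
      R.toWord = R' ++ FreeGroup.invRev (u.take i₀) ∧ FreeGroup.IsReduced (R' ++ u.drop i₀) :=
  exists_cancel_list u R.toWord FreeGroup.isReduced_toWord hu

theorem exists_decomp [DecidableEq X] (α β : FreeGroup X) :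
    ∃ p g q : List (X × Bool), α.toWord = p ++ g ∧ β.toWord = FreeGroup.invRev g ++ q ∧
      (α * β).toWord = p ++ q := by
  obtain ⟨i, -, R', h1, h2⟩ := exists_cancel α β.toWord FreeGroup.isReduced_toWord
  refine ⟨R', FreeGroup.invRev (β.toWord.take i), β.toWord.drop i, h1, ?_, ?_⟩
  · rw [FreeGroup.invRev_invRev, List.take_append_drop]
  · have hα : α = FreeGroup.mk R' * (FreeGroup.mk (β.toWord.take i))⁻¹ := by
      rw [FreeGroup.inv_mk, FreeGroup.mul_mk, ← h1, FreeGroup.mk_toWord]
    have hβ : β = FreeGroup.mk (β.toWord.take i) * FreeGroup.mk (β.toWord.drop i) := by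
      rw [FreeGroup.mul_mk, List.take_append_drop, FreeGroup.mk_toWord]
    have hαβ : α * β = FreeGroup.mk (R' ++ β.toWord.drop i) := by
      rw [← FreeGroup.mul_mk]
      calc α * β = (FreeGroup.mk R' * (FreeGroup.mk (β.toWord.take i))⁻¹) *
            (FreeGroup.mk (β.toWord.take i) * FreeGroup.mk (β.toWord.drop i)) := by
            rw [← hα, ← hβ]
        _ = _ := by group
    rw [hαβ, toWord_mk_of_isReduced h2]

theorem toWord_take [DecidableEq X] (R : FreeGroup X) (u : List (X × Bool))
    (hu : FreeGroup.IsReduced u) :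
    ∃ i₀ ≤ u.length,
      (∀ i, i₀ ≤ i → i ≤ u.length →
        (u.take i).drop i₀ <:+ (R * FreeGroup.mk (u.take i)).toWord) ∧
      (∀ i, i ≤ i₀ →
        FreeGroup.invRev ((u.take i₀).drop i) <:+ (R * FreeGroup.mk (u.take i)).toWord) := by
  obtain ⟨i₀, hi₀, R', h1, h2⟩ := exists_cancel R u hu
  have hR : R = FreeGroup.mk R' * (FreeGroup.mk (u.take i₀))⁻¹ := by
    rw [FreeGroup.inv_mk, FreeGroup.mul_mk, ← h1, FreeGroup.mk_toWord]
  refine ⟨i₀, hi₀, fun i hi hil => ?_, fun i hi => ?_⟩
  · have hsplit : u.take i = u.take i₀ ++ (u.take i).drop i₀ := by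
      conv_lhs => rw [← List.take_append_drop i₀ (u.take i)]
      rw [List.take_take, min_eq_left hi]
    have hmul : R * FreeGroup.mk (u.take i) = FreeGroup.mk (R' ++ (u.take i).drop i₀) := by
      rw [hR, ← FreeGroup.mul_mk]
      conv_lhs => rw [hsplit]
      rw [← FreeGroup.mul_mk]
      group
    have hred : FreeGroup.IsReduced (R' ++ (u.take i).drop i₀) := by
      refine Canc_sub h2 (List.IsPrefix.isInfix ?_)
      rw [List.prefix_append_right_inj]
      exact (List.take_prefix i u).drop i₀
    rw [hmul, toWord_mk_of_isReduced hred]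
    exact List.suffix_append _ _
  · have hsplit : u.take i₀ = u.take i ++ (u.take i₀).drop i := by
      conv_lhs => rw [← List.take_append_drop i (u.take i₀)]
      rw [List.take_take, min_eq_left hi]
    have hmul : R * FreeGroup.mk (u.take i) =
        FreeGroup.mk (R' ++ FreeGroup.invRev ((u.take i₀).drop i)) := by
      rw [hR, ← FreeGroup.mul_mk, ← FreeGroup.inv_mk]
      conv_lhs => rw [hsplit]
      rw [← FreeGroup.mul_mk]
      group
    have hred : FreeGroup.IsReduced (R' ++ FreeGroup.invRev ((u.take i₀).drop i)) := by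
      have h3 : FreeGroup.IsReduced R.toWord := FreeGroup.isReduced_toWord
      refine Canc_sub h3 (List.IsPrefix.isInfix ?_)
      rw [h1, List.prefix_append_right_inj]
      conv_rhs => rw [hsplit]
      rw [FreeGroup.invRev_append]
      exact List.prefix_append _ _
    rw [hmul, toWord_mk_of_isReduced hred]
    exact List.suffix_append _ _

end Pool.MP_ed1a61_al.Irr
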