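import Pool.Agent.Lib.MP_ed1a61_al.Irr.Nrm

/-! # Words which are trivial in a presented group are filled by relator loops

(1) `chL x g L` depends only on `FreeGroup.mk L`: it is unchanged by `FreeGroup.Red.Step` (the two
cancelling letters give the same edge with opposite signs and return to the same point).
(2) Call `w : FreeGroup X` good if for all `g` there is `c` with
`chL of g w.toWord = Σ op (rel l) (c l)`. Let `N` be the set of the good `w` with trivial image.
It is closed under products (`chL_append`, the image of the first factor is trivial), inverses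
(`chL_invRev`), conjugation: `chL g (v w v⁻¹) = chL g v + chL (g v) w - chL g v` as the image of
`w` is trivial. It contains `mk (rel l)` (`c = single g 1` at `l`). So it contains the normal closure
(`Subgroup.normalClosure_le_normal`), which is the kernel of `FreeGroup X → PresentedGroup`. -/

set_option autoImplicit false

namespace Pool.MP_ed1a61_al.Irr

private theorem chain_step {G X : Type} [Group G] (x : X → G) (g : G) (L L' : List (X × Bool))
    (h : FreeGroup.Red.Step L L') : chL x g L = chL x g L' := by
  cases h with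
  | @not L₁ L₂ a b =>
    rw [chL_append, chL_append]
    congr 1
    cases b
    · simp [chL, lv]
    · simp [chL, lv]

private theorem chain_congr {G X : Type} [Group G] (x : X → G) (g : G) {L L' : List (X × Bool)}
    (h : FreeGroup.mk L = FreeGroup.mk L') : chL x g L = chL x g L' :=
  congrArg (Quot.lift (fun M => chL x g M) (chain_step x g)) h

private theorem chain_val {G X : Type} [Group G] (x : X → G) {L L' : List (X × Bool)}
    (h : FreeGroup.mk L = FreeGroup.mk L') : val x L = val x L' := by
  rw [← lift_mk_eq_val, ← lift_mk_eq_val, h]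

private theorem chain_op_zero {G X : Type} [Group G] (x : X → G) (u : List (X × Bool)) :
    op x u 0 = 0 := Finsupp.sum_zero_index

/-- The trivial words whose chains are sums of chains of relators. -/
private def chainN {G X ι : Type} [Group G] [Fintype ι] (x : X → G)
    (rel : ι → List (X × Bool)) : Subgroup (FreeGroup X) where
  carrier := {w | ∃ L, w = FreeGroup.mk L ∧ val x L = 1 ∧
    ∀ g, ∃ c : ι → G →₀ ℝ, chL x g L = ∑ l, op x (rel l) (c l)}
  one_mem' := ⟨[], FreeGroup.one_eq_mk, val_nil, fun g => ⟨fun _ => 0, by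
    simp [chL, chain_op_zero]⟩⟩
  mul_mem' := by
    rintro _ _ ⟨L, rfl, h1, h2⟩ ⟨M, rfl, h3, h4⟩
    refine ⟨L ++ M, FreeGroup.mul_mk, ?_, fun g => ?_⟩
    · rw [val_append, h1, h3, mul_one]
    · obtain ⟨c, hc⟩ := h2 g
      obtain ⟨c', hc'⟩ := h4 g
      refine ⟨fun l => c l + c' l, ?_⟩
      rw [chL_append, h1, mul_one, hc, hc', ← Finset.sum_add_distrib]
      exact Finset.sum_congr rfl fun l _ => (op_add _ _ _).symm
  inv_mem' := by
    rintro _ ⟨L, rfl, h1, h2⟩
    refine ⟨FreeGroup.invRev L, FreeGroup.inv_mk, ?_, fun g => ?_⟩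
    · rw [val_invRev, h1, inv_one]
    · obtain ⟨c, hc⟩ := h2 g
      refine ⟨fun l => - c l, ?_⟩
      have h3 := chL_invRev (x := x) g L
      rw [h1, mul_one] at h3
      rw [h3, hc, ← Finset.sum_neg_distrib]
      exact Finset.sum_congr rfl fun l _ => (op_neg _ _).symm

private theorem chainN_normal {G X ι : Type} [Group G] [Fintype ι] (x : X → G)
    (rel : ι → List (X × Bool)) : (chainN x rel).Normal := by
  refine ⟨?_⟩
  rintro _ ⟨L, rfl, h1, h2⟩ v
  obtain ⟨V, rfl⟩ := Quot.exists_rep v
  refine ⟨V ++ L ++ FreeGroup.invRev V, ?_, ?_, fun g => ?_⟩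
  · rw [← FreeGroup.mul_mk, ← FreeGroup.mul_mk, ← FreeGroup.inv_mk]
    rfl
  · rw [val_append, val_append, h1, val_invRev, mul_one, mul_inv_cancel]
  · obtain ⟨c, hc⟩ := h2 (g * val x V)
    refine ⟨c, ?_⟩
    rw [chL_append, chL_append, val_append, h1, mul_one, chL_invRev, hc]
    abel

private theorem chain_main {G X ι : Type} [Group G] [Fintype ι] (x : X → G)
    (rel : ι → List (X × Bool)) (hrel : ∀ l, val x (rel l) = 1) (L : List (X × Bool))
    (hL : FreeGroup.mk L ∈ Subgroup.normalClosure (Set.range fun l => FreeGroup.mk (rel l)))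
    (g : G) : ∃ c : ι → G →₀ ℝ, chL x g L = ∑ l, op x (rel l) (c l) := by
  classical
  have := chainN_normal x rel
  have h1 : Subgroup.normalClosure (Set.range fun l => FreeGroup.mk (rel l)) ≤ chainN x rel := by
    refine Subgroup.normalClosure_le_normal ?_
    rintro _ ⟨l, rfl⟩
    refine ⟨rel l, rfl, hrel l, fun g => ⟨Pi.single l (Finsupp.single g 1), ?_⟩⟩
    rw [Finset.sum_eq_single l]
    · rw [Pi.single_eq_same, op_single, one_smul]
    · intro l' _ hl'
      rw [Pi.single_eq_of_ne hl', chain_op_zero]
    · exact fun h => absurd (Finset.mem_univ l) h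
  obtain ⟨M, hM, -, h2⟩ := h1 hL
  obtain ⟨c, hc⟩ := h2 g
  exact ⟨c, by rw [chain_congr x g hM, hc]⟩

theorem exists_chain {X ι : Type} [Fintype ι] (rel : ι → List (X × Bool))
    (g : PresentedGroup (Set.range fun l => FreeGroup.mk (rel l))) (L : List (X × Bool))
    (hL : val (G := PresentedGroup (Set.range fun l => FreeGroup.mk (rel l)))
      PresentedGroup.of L = 1) :
    ∃ c : ι → PresentedGroup (Set.range fun l => FreeGroup.mk (rel l)) →₀ ℝ,
      chL PresentedGroup.of g L = ∑ l, op PresentedGroup.of (rel l) (c l) := by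
  have h0 : ∀ M : List (X × Bool),
      val (G := PresentedGroup (Set.range fun l => FreeGroup.mk (rel l))) PresentedGroup.of M =
        PresentedGroup.mk (Set.range fun l => FreeGroup.mk (rel l)) (FreeGroup.mk M) := by
    intro M
    rw [← lift_mk_eq_val]
    have h1 : FreeGroup.lift PresentedGroup.of =
        PresentedGroup.mk (Set.range fun l => FreeGroup.mk (rel l)) := by
      ext a
      rw [FreeGroup.lift_apply_of]
      rfl
    rw [h1]
  refine chain_main _ rel (fun l => ?_) L ?_ g
  · rw [h0]
    exact PresentedGroup.one_of_mem ⟨l, rfl⟩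
  · rw [h0] at hL
    exact (QuotientGroup.eq_one_iff _).1 hL

end Pool.MP_ed1a61_al.Irr
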