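import Pool.Agent.Lib.MP_ed1a61_al.Irr.Theta

/-! # The norm inequality

Apply `exists_theta` with `s l g = 1` if `0 ≤ c l g` and `-1` otherwise. Then
`Σ_l (n_l - 4κ) nrm (c l) = Σ_l Σ_g |c l g| (n_l - 4κ)
≤ Σ_l Σ_g |c l g| s l g * pr Θ (chL x g (u l))
= Σ_l Σ_g c l g * pr Θ (chL x g (u l)) = pr Θ (Σ_l op x (u l) (c l)) ≤ nrm (...)`
(`pr_sum`, `pr_op`, `pr_le_nrm`).

`exists_rho`: `e : Y → X` injective and the elements `x (e y)` generate freely. Let `S` be the
range of
`FreeGroup.lift (fun y => x (e y))`. For every left coset of `S` choose a representative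
(`Quotient.out`);
`g = rep * lift w` for a unique `w : FreeGroup Y`; put `ρ g = FreeGroup.map e w`. -/

set_option autoImplicit false

namespace Pool.MP_ed1a61_al.Irr

variable {G X ι : Type} [Group G]

theorem norm_ineq [Fintype ι] (x : X → G) (P : X → Prop) (ρ : G → FreeGroup X)
    (hρ : ∀ g y, P y → ρ (g * x y) = ρ g * FreeGroup.of y)
    (u : ι → List (X × Bool)) (κ : ℕ) (hP : ∀ l, ∀ q ∈ u l, P q.1)
    (hred : ∀ l, FreeGroup.IsReduced (u l))
    (hd : ∀ l l' i i', i + κ < (u l).length → i' + κ < (u l').length →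
      ((u l).drop i).take (κ + 1) = ((u l').drop i').take (κ + 1) → l = l' ∧ i = i')
    (hd' : ∀ l l' i i', i + κ < (u l).length → i' + κ < (u l').length →
      ((u l).drop i).take (κ + 1) ≠ FreeGroup.invRev (((u l').drop i').take (κ + 1)))
    (c : ι → G →₀ ℝ) :
    ∑ l, (((u l).length : ℝ) - 4 * κ) * nrm (c l) ≤ nrm (∑ l, op x (u l) (c l)) := by
  obtain ⟨Θ, h1, h2⟩ := exists_theta x P ρ hρ u κ hP hred hd hd'
    (fun l g => if 0 ≤ c l g then 1 else -1) (fun l g => by
      split_ifs
      · exact Or.inl rfl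
      · exact Or.inr rfl)
  calc ∑ l, (((u l).length : ℝ) - 4 * κ) * nrm (c l)
      ≤ ∑ l, pr Θ (op x (u l) (c l)) := by
        refine Finset.sum_le_sum fun l _ => ?_
        rw [pr_op]
        unfold nrm Finsupp.sum
        rw [Finset.mul_sum]
        refine Finset.sum_le_sum fun g _ => ?_
        have h3 := h2 l g
        have h4 := mul_le_mul_of_nonneg_left h3 (abs_nonneg (c l g))
        show (((u l).length : ℝ) - 4 * κ) * |c l g| ≤ c l g * pr Θ (chL x g (u l))
        by_cases h0 : 0 ≤ c l g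
        · rw [if_pos h0, one_mul] at h4
          rw [abs_of_nonneg h0] at h4 ⊢
          rw [mul_comm]
          exact h4
        · rw [if_neg h0] at h4
          rw [abs_of_neg (not_le.1 h0)] at h4 ⊢
          linarith
    _ = pr Θ (∑ l, op x (u l) (c l)) := (pr_sum Θ Finset.univ _).symm
    _ ≤ nrm (∑ l, op x (u l) (c l)) := pr_le_nrm Θ h1 _

theorem exists_rho {Y : Type} (x : X → G) (e : Y → X) (he : Function.Injective e)
    (h : Function.Injective (FreeGroup.lift (fun y => x (e y)))) :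
    ∃ ρ : G → FreeGroup X, ∀ (g : G) (y : Y), ρ (g * x (e y)) = ρ g * FreeGroup.of (e y) := by
  have hex : ∀ g : G, ∃ w : FreeGroup Y,
      g = (QuotientGroup.mk g : G ⧸ (FreeGroup.lift (fun y => x (e y))).range).out *
        FreeGroup.lift (fun y => x (e y)) w := by
    intro g
    obtain ⟨⟨k, w, hw⟩, hk⟩ :=
      QuotientGroup.mk_out_eq_mul (FreeGroup.lift (fun y => x (e y))).range g
    refine ⟨w⁻¹, ?_⟩
    rw [hk, map_inv, hw]
    group
  choose W hW using hex
  refine ⟨fun g => FreeGroup.map e (W g), fun g y => ?_⟩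
  have h1 : (QuotientGroup.mk (g * x (e y)) : G ⧸ (FreeGroup.lift (fun y => x (e y))).range) =
      QuotientGroup.mk g := by
    rw [eq_comm, QuotientGroup.eq]
    refine ⟨FreeGroup.of y, ?_⟩
    rw [FreeGroup.lift_apply_of]
    group
  have h2 := hW (g * x (e y))
  rw [h1] at h2
  have h3 : g * x (e y) =
      (QuotientGroup.mk g : G ⧸ (FreeGroup.lift (fun y => x (e y))).range).out *
        FreeGroup.lift (fun y => x (e y)) (W g * FreeGroup.of y) := by
    rw [map_mul, FreeGroup.lift_apply_of, ← mul_assoc, ← hW g]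
  rw [h3] at h2
  have h4 := h (mul_left_cancel h2)
  have h5 : W (g * x (e y)) = W g * FreeGroup.of y := by
    rw [h3]
    exact h4.symm
  show FreeGroup.map e (W (g * x (e y))) = FreeGroup.map e (W g) * FreeGroup.of (e y)
  rw [h5, map_mul, FreeGroup.map.of]

end Pool.MP_ed1a61_al.Irr
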