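import Pool.Agent.Lib.MP_ed1a61_al.Irr.GDefs
import Pool.Agent.Lib.MP_ed1a61_al.Irr.NormIneq

/-! # The two norm inequalities for the group `GG m`

`norm_h`: `norm_ineq` with `ι = Unit`, `u = xPL Gen.h`, `κ = 1`, `P z = ∃ k, z = Gen.h k`,
`ρ` from `exists_rho` (`e = Gen.h`): the seven subwords of length 2 of `[c,d][e,f]` and their
inverses are pairwise distinct (finite check). `(8 - 4) = 4`.
`norm_l`: `ι = Bool`, `u = phL`, `κ = 5`, `P z = ∃ y, z = Gen.l y`, `e = Gen.l`: the `17 + 22`
subwords of length 6 of `φ(a)` and `φ(b)` are pairwise distinct, positive words are different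
from inverses of positive words; `22 - 20 = 2 ≤` both factors. -/

set_option autoImplicit false

namespace Pool.MP_ed1a61_al.Irr

private theorem gen_h_inj : Function.Injective Gen.h := by
  intro a b hab
  cases hab
  rfl

private theorem gen_l_inj : Function.Injective Gen.l := by
  intro a b hab
  cases hab
  rfl

private theorem xPL_hd : ∀ i i' : Fin 7, ((xPL Gen.h).drop i.1).take 2 =
    ((xPL Gen.h).drop i'.1).take 2 → i = i' := by
  decide +kernel

private theorem xPL_hd' : ∀ i i' : Fin 7, ((xPL Gen.h).drop i.1).take 2 ≠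
    FreeGroup.invRev (((xPL Gen.h).drop i'.1).take 2) := by
  decide +kernel

private theorem sub_hd : ∀ l l' : Bool, ∀ i i' : Fin 22, i.1 + 5 < (sub l).length →
    i'.1 + 5 < (sub l').length → ((sub l).drop i.1).take 6 = ((sub l').drop i'.1).take 6 →
    l = l' ∧ i = i' := by
  decide +kernel

private theorem sub_length_le (l : Bool) : (sub l).length ≤ 27 := by
  cases l <;> decide

private theorem phL_length (l : Bool) : (phL l).length = (sub l).length := by
  simp [phL]

theorem norm_h (m : ℕ)
    (h : Function.Injective (FreeGroup.lift (fun k : Fin 4 => gx m (Gen.h k))))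
    (c : GG m →₀ ℝ) : 4 * nrm c ≤ nrm (op (gx m) (xPL Gen.h) c) := by
  obtain ⟨ρ, hρ⟩ := exists_rho (gx m) Gen.h gen_h_inj h
  have key := norm_ineq (ι := Unit) (gx m) (fun z => ∃ k, z = Gen.h k) ρ
    (by
      rintro g y ⟨k, rfl⟩
      exact hρ g k)
    (fun _ => xPL Gen.h) 1
    (by
      intro _ q hq
      simp only [xPL, List.mem_cons, List.not_mem_nil, or_false] at hq
      rcases hq with rfl | rfl | rfl | rfl | rfl | rfl | rfl | rfl <;> exact ⟨_, rfl⟩)
    (by
      intro _
      simp [xPL, FreeGroup.IsReduced])
    (by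
      intro l l' i i' hi hi' he
      have e1 : (xPL Gen.h).length = 8 := rfl
      rw [e1] at hi hi'
      have := xPL_hd ⟨i, by omega⟩ ⟨i', by omega⟩ he
      exact ⟨rfl, by simpa using this⟩)
    (by
      intro l l' i i' hi hi'
      have e1 : (xPL Gen.h).length = 8 := rfl
      rw [e1] at hi hi'
      exact xPL_hd' ⟨i, by omega⟩ ⟨i', by omega⟩)
    (fun _ => c)
  have e1 : (xPL Gen.h).length = 8 := rfl
  simp only [Finset.univ_unique, Finset.sum_singleton, e1] at key
  norm_num at key
  exact key

theorem norm_l (m : ℕ)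
    (h : Function.Injective (FreeGroup.lift (fun y : Bool => gx m (Gen.l y))))
    (c : Bool → GG m →₀ ℝ) :
    2 * ∑ y, nrm (c y) ≤ nrm (∑ y, op (gx m) (phL y) (c y)) := by
  obtain ⟨ρ, hρ⟩ := exists_rho (gx m) Gen.l gen_l_inj h
  have hsub : ∀ (l : Bool) (i : ℕ), ((phL l).drop i).take (5 + 1) =
      (((sub l).drop i).take 6).map fun z => (Gen.l z, true) := by
    intro l i
    simp only [phL, List.map_drop, List.map_take]
  have hinj : Function.Injective (fun z : Bool => (Gen.l z, true)) := by
    intro a b hab
    exact gen_l_inj (Prod.mk.inj hab).1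
  have key := norm_ineq (ι := Bool) (gx m) (fun z => ∃ k, z = Gen.l k) ρ
    (by
      rintro g y ⟨k, rfl⟩
      exact hρ g k)
    phL 5
    (by
      intro l q hq
      simp only [phL, List.mem_map] at hq
      obtain ⟨z, -, rfl⟩ := hq
      exact ⟨z, rfl⟩)
    (by
      intro l
      cases l <;> simp [phL, sub, FreeGroup.IsReduced])
    (by
      intro l l' i i' hi hi' he
      rw [hsub, hsub] at he
      have he1 := List.map_injective_iff.2 hinj he
      rw [phL_length] at hi hi'
      have hl := sub_length_le l
      have hl' := sub_length_le l'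
      obtain ⟨h1, h2⟩ := sub_hd l l' ⟨i, by omega⟩ ⟨i', by omega⟩ hi hi' he1
      exact ⟨h1, by simpa using h2⟩)
    (by
      intro l l' i i' hi hi' he
      have hne : ((phL l).drop i).take (5 + 1) ≠ [] := by
        intro h0
        have h1 := congrArg List.length h0
        simp only [List.length_take, List.length_drop, List.length_nil] at h1
        omega
      obtain ⟨q, hq⟩ := List.exists_mem_of_ne_nil _ hne
      have hq1 : q.2 = true := by
        have h1 : q ∈ phL l := List.mem_of_mem_drop (List.mem_of_mem_take hq)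
        simp only [phL, List.mem_map] at h1
        obtain ⟨z, -, rfl⟩ := h1
        rfl
      rw [he] at hq
      simp only [FreeGroup.invRev, List.mem_reverse, List.mem_map] at hq
      obtain ⟨r, hr, hrq⟩ := hq
      have hr1 : r.2 = true := by
        have h1 : r ∈ phL l' := List.mem_of_mem_drop (List.mem_of_mem_take hr)
        simp only [phL, List.mem_map] at h1
        obtain ⟨z, -, rfl⟩ := h1
        rfl
      rw [← hrq] at hq1
      simp [hr1] at hq1)
    c
  refine le_trans ?_ key
  rw [Finset.mul_sum]
  refine Finset.sum_le_sum fun y _ => ?_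
  refine mul_le_mul_of_nonneg_right ?_ (nrm_nonneg _)
  rw [phL_length]
  cases y
  · have : (sub false).length = 22 := rfl
    rw [this]
    norm_num
  · have : (sub true).length = 27 := rfl
    rw [this]
    norm_num

end Pool.MP_ed1a61_al.Irr
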