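import Pool.Agent.Lib.MP_ed1a61_al.Irr.FillA
import Pool.Agent.Lib.MP_ed1a61_al.Irr.Chain

/-! # The relator chains of `GG m` and their restrictions to the kinds of edges

Write `x = gx m`. `isH`, `isL`, `isS` : the kind of the generator of an edge. The restriction of a
chain is `Finsupp.filter`.
Rules (all by `chL_append`, `chL_invRev`, `op`-linearity, and the fact that the filter of `chL g
L` is `chL g L` if all
letters of `L` are of the kind, and `0` if no letter is of the kind):
`op_t`: `chL g (relL (t y)) = single (g, t) 1 + single (g t, l y) 1 - single (g φ(y), t) 1 - chL g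
(phL y)`, because
`g t y t⁻¹ = g φ(y)` in `GG m`, so `invRev (phL y)` is traversed from the end point `g φ(y)` of
`phL y`.
`op_b`: `chL g (relL b) = chL g (b^m) - chL g (xPL h)` because `b^m = [c,d][e,f]` in the group.
`shiftT c` is the chain `Σ c(g) single (g t, l y) 1`, its norm is at most `nrm c`. -/

set_option autoImplicit false

namespace Pool.MP_ed1a61_al.Irr

/-- edges labelled `c, d, e, f` -/
def isH : Gen → Bool
  | .h _ => true
  | _ => false

/-- edges labelled `a, b` -/
def isL : Gen → Bool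
  | .l _ => true
  | _ => false

/-- edges labelled `s` -/
def isS : Gen → Bool
  | .s => true
  | _ => false

/-- `Σ c(g) single (g t, l y)` -/
noncomputable def shiftT (m : ℕ) (y : Bool) (c : GG m →₀ ℝ) : GG m × Gen →₀ ℝ :=
  c.sum fun g r => Finsupp.single (g * gx m Gen.t, Gen.l y) r

theorem nrm_shiftT_le (m : ℕ) (y : Bool) (c : GG m →₀ ℝ) : nrm (shiftT m y c) ≤ nrm c := by
  unfold shiftT Finsupp.sum
  refine (nrm_sum_le _ _).trans (le_of_eq ?_)
  exact Finset.sum_congr rfl fun g _ => nrm_single _ _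

private theorem fillB_sg1 {G X : Type} (P : X → Bool) {y : X} (h : P y = true) (g : G) (r : ℝ) :
    (Finsupp.single (g, y) r).filter (fun e : G × X => P e.2) = Finsupp.single (g, y) r :=
  Finsupp.filter_single_of_pos (fun e : G × X => P e.2 = true) h

private theorem fillB_sg0 {G X : Type} (P : X → Bool) {y : X} (h : P y = false) (g : G) (r : ℝ) :
    (Finsupp.single (g, y) r).filter (fun e : G × X => P e.2) = 0 :=
  Finsupp.filter_single_of_neg (fun e : G × X => P e.2 = true) (by
    change ¬ P y = true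
    rw [h]
    exact Bool.false_ne_true)

private theorem fillB_all {G X : Type} [Group G] (x : X → G) (P : X → Bool)
    (L : List (X × Bool)) (h : ∀ q ∈ L, P q.1 = true) :
    ∀ g, (chL x g L).filter (fun e => P e.2) = chL x g L := by
  induction L with
  | nil =>
    intro g
    exact Finsupp.filter_zero _
  | cons q L ih =>
    intro g
    have h1 := h q List.mem_cons_self
    rw [chL, Finsupp.filter_add, ih fun q' hq' => h q' (List.mem_cons_of_mem _ hq')]
    congr 1
    split_ifs
    · exact fillB_sg1 P h1 _ _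
    · rw [Finsupp.filter_neg, fillB_sg1 P h1]

private theorem fillB_none {G X : Type} [Group G] (x : X → G) (P : X → Bool)
    (L : List (X × Bool)) (h : ∀ q ∈ L, P q.1 = false) :
    ∀ g, (chL x g L).filter (fun e => P e.2) = 0 := by
  induction L with
  | nil =>
    intro g
    exact Finsupp.filter_zero _
  | cons q L ih =>
    intro g
    have h1 := h q List.mem_cons_self
    rw [chL, Finsupp.filter_add, ih fun q' hq' => h q' (List.mem_cons_of_mem _ hq'), add_zero]
    split_ifs
    · exact fillB_sg0 P h1 _ _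
    · rw [Finsupp.filter_neg, fillB_sg0 P h1, neg_zero]

private theorem fillB_op {G X : Type} [Group G] (x : X → G) (P : X → Bool)
    (u : List (X × Bool)) (c : G →₀ ℝ) : (op x u c).filter (fun e => P e.2) =
      c.sum fun g r => r • (chL x g u).filter (fun e => P e.2) := by
  unfold op Finsupp.sum
  rw [Finsupp.filter_sum]
  exact Finset.sum_congr rfl fun g _ => Finsupp.filter_smul

private theorem fillB_op_all {G X : Type} [Group G] (x : X → G) (P : X → Bool)
    (u : List (X × Bool)) (c : G →₀ ℝ) (h : ∀ q ∈ u, P q.1 = true) :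
    (op x u c).filter (fun e => P e.2) = op x u c := by
  rw [fillB_op]
  exact Finset.sum_congr rfl fun g _ => by
    change _ • _ = _ • _
    rw [fillB_all x P u h]

private theorem fillB_op_none {G X : Type} [Group G] (x : X → G) (P : X → Bool)
    (u : List (X × Bool)) (c : G →₀ ℝ) (h : ∀ q ∈ u, P q.1 = false) :
    (op x u c).filter (fun e => P e.2) = 0 := by
  rw [fillB_op]
  exact Finset.sum_eq_zero fun g _ => by
    change _ • _ = _
    rw [fillB_none x P u h, smul_zero]

private theorem fillB_inv {X : Type} {P : X → Bool} {b : Bool} {L : List (X × Bool)}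
    (h : ∀ q ∈ L, P q.1 = b) : ∀ q ∈ FreeGroup.invRev L, P q.1 = b := by
  intro q hq
  rw [FreeGroup.invRev, List.mem_reverse, List.mem_map] at hq
  obtain ⟨q', hq', rfl⟩ := hq
  exact h q' hq'

private theorem fillB_ph (y : Bool) : (∀ q ∈ phL y, isL q.1 = true) ∧
    (∀ q ∈ phL y, isH q.1 = false) ∧ ∀ q ∈ phL y, isS q.1 = false := by
  have h : ∀ q ∈ phL y, ∃ z, q = (Gen.l z, true) := by
    intro q hq
    rw [phL, List.mem_map] at hq
    obtain ⟨z, -, rfl⟩ := hq
    exact ⟨z, rfl⟩
  refine ⟨fun q hq => ?_, fun q hq => ?_, fun q hq => ?_⟩ <;>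
  · obtain ⟨z, rfl⟩ := h q hq
    rfl

private theorem fillB_x : (∀ q ∈ xPL Gen.h, isL q.1 = false) ∧
    (∀ q ∈ xPL Gen.h, isH q.1 = true) ∧ ∀ q ∈ xPL Gen.h, isS q.1 = false := by
  refine ⟨?_, ?_, ?_⟩ <;>
  · unfold xPL
    simp [isL, isH, isS]

private theorem fillB_rep (m : ℕ) :
    (∀ q ∈ List.replicate m (Gen.l true, true), isL q.1 = true) ∧
    (∀ q ∈ List.replicate m (Gen.l true, true), isH q.1 = false) ∧
    ∀ q ∈ List.replicate m (Gen.l true, true), isS q.1 = false := by
  refine ⟨fun q hq => ?_, fun q hq => ?_, fun q hq => ?_⟩ <;>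
  · rw [List.eq_of_mem_replicate hq]
    rfl

private theorem fillB_val (m : ℕ) (r : Rel) : val (gx m) (relL m r) = 1 := by
  rw [← lift_mk_eq_val]
  have h1 : FreeGroup.lift (gx m) =
      PresentedGroup.mk (Set.range fun r => FreeGroup.mk (relL m r)) := by
    refine FreeGroup.ext_hom _ _ fun a => ?_
    rw [FreeGroup.lift_apply_of]
    rfl
  rw [h1]
  exact PresentedGroup.one_of_mem ⟨r, rfl⟩

private theorem fillB_vb (m : ℕ) :
    val (gx m) (List.replicate m (Gen.l true, true)) = val (gx m) (xPL Gen.h) := by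
  have h1 := fillB_val m Rel.b
  rw [relL, val_append, val_invRev, mul_inv_eq_one] at h1
  exact h1

private theorem fillB_vt (m : ℕ) (y : Bool) :
    gx m Gen.t * gx m (Gen.l y) * (gx m Gen.t)⁻¹ = val (gx m) (phL y) := by
  have h1 := fillB_val m (Rel.t y)
  rw [relL, val_cons, val_cons, val_cons, val_invRev, ← mul_assoc, ← mul_assoc,
    mul_inv_eq_one] at h1
  exact h1

private theorem fillB_chb (m : ℕ) (g : GG m) : chL (gx m) g (relL m Rel.b) =
    chL (gx m) g (List.replicate m (Gen.l true, true)) - chL (gx m) g (xPL Gen.h) := by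
  rw [relL, chL_append, fillB_vb, chL_invRev, sub_eq_add_neg]

private theorem fillB_cht (m : ℕ) (y : Bool) (g : GG m) :
    chL (gx m) g (relL m (Rel.t y)) = Finsupp.single (g, Gen.t) 1 +
      Finsupp.single (g * gx m Gen.t, Gen.l y) 1 -
      Finsupp.single (g * gx m Gen.t * gx m (Gen.l y) * (gx m Gen.t)⁻¹, Gen.t) 1 -
      chL (gx m) g (phL y) := by
  have h1 : chL (gx m) (g * gx m Gen.t * gx m (Gen.l y) * (gx m Gen.t)⁻¹)
      (FreeGroup.invRev (phL y)) = - chL (gx m) g (phL y) := by
    rw [← chL_invRev, ← fillB_vt, mul_assoc, mul_assoc, mul_assoc]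
  have h2 : chL (gx m) g (relL m (Rel.t y)) = Finsupp.single (g, Gen.t) 1 +
      (Finsupp.single (g * gx m Gen.t, Gen.l y) 1 +
      (-Finsupp.single (g * gx m Gen.t * gx m (Gen.l y) * (gx m Gen.t)⁻¹, Gen.t) 1 +
      chL (gx m) (g * gx m Gen.t * gx m (Gen.l y) * (gx m Gen.t)⁻¹)
        (FreeGroup.invRev (phL y)))) := rfl
  rw [h2, h1]
  abel

private theorem fillB_t (m : ℕ) (y : Bool) (P : Gen → Bool) (h0 : P Gen.t = false)
    (h1 : P (Gen.l y) = false) (h2 : ∀ q ∈ phL y, P q.1 = false) :
    ∀ q ∈ relL m (Rel.t y), P q.1 = false := by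
  intro q hq
  rw [relL, List.mem_cons, List.mem_cons, List.mem_cons] at hq
  rcases hq with rfl | rfl | rfl | hq
  · exact h0
  · exact h1
  · exact h0
  · exact fillB_inv h2 q hq

private theorem fillB_s (m : ℕ) (P : Gen → Bool) (b : Bool) (h0 : P Gen.s = b) :
    ∀ q ∈ relL m Rel.s, P q.1 = b := by
  intro q hq
  rw [relL, List.mem_cons, List.mem_singleton] at hq
  rcases hq with rfl | rfl
  · exact h0
  · exact h0

theorem filterH_t (m : ℕ) (y : Bool) (c : GG m →₀ ℝ) :
    (op (gx m) (relL m (Rel.t y)) c).filter (fun e => isH e.2) = 0 := by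
  exact fillB_op_none _ isH _ c (fillB_t m y isH rfl rfl (fillB_ph y).2.1)

theorem filterH_s (m : ℕ) (c : GG m →₀ ℝ) :
    (op (gx m) (relL m Rel.s) c).filter (fun e => isH e.2) = 0 := by
  exact fillB_op_none _ isH _ c (fillB_s m isH _ rfl)

theorem filterH_b (m : ℕ) (c : GG m →₀ ℝ) :
    (op (gx m) (relL m Rel.b) c).filter (fun e => isH e.2) = - op (gx m) (xPL Gen.h) c := by
  rw [fillB_op]
  unfold op Finsupp.sum
  rw [← Finset.sum_neg_distrib]
  refine Finset.sum_congr rfl fun g _ => ?_
  beta_reduce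
  rw [fillB_chb, Finsupp.filter_sub, fillB_none _ isH _ (fillB_rep m).2.1,
    fillB_all _ isH _ fillB_x.2.1, zero_sub, smul_neg]

theorem filterL_t (m : ℕ) (y : Bool) (c : GG m →₀ ℝ) :
    (op (gx m) (relL m (Rel.t y)) c).filter (fun e => isL e.2) =
      shiftT m y c - op (gx m) (phL y) c := by
  rw [fillB_op]
  unfold shiftT op Finsupp.sum
  rw [← Finset.sum_sub_distrib]
  refine Finset.sum_congr rfl fun g _ => ?_
  beta_reduce
  rw [fillB_cht, Finsupp.filter_sub, Finsupp.filter_sub, Finsupp.filter_add,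
    fillB_all _ isL _ (fillB_ph y).1, fillB_sg0 isL (rfl : isL Gen.t = false),
    fillB_sg0 isL (rfl : isL Gen.t = false),
    fillB_sg1 isL (rfl : isL (Gen.l y) = true), zero_add, sub_zero, smul_sub,
    Finsupp.smul_single, smul_eq_mul, mul_one]

theorem filterL_s (m : ℕ) (c : GG m →₀ ℝ) :
    (op (gx m) (relL m Rel.s) c).filter (fun e => isL e.2) = 0 := by
  exact fillB_op_none _ isL _ c (fillB_s m isL _ rfl)

theorem filterL_b (m : ℕ) (c : GG m →₀ ℝ) :
    (op (gx m) (relL m Rel.b) c).filter (fun e => isL e.2) =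
      op (gx m) (List.replicate m (Gen.l true, true)) c := by
  rw [fillB_op]
  unfold op Finsupp.sum
  refine Finset.sum_congr rfl fun g _ => ?_
  beta_reduce
  rw [fillB_chb, Finsupp.filter_sub, fillB_all _ isL _ (fillB_rep m).1,
    fillB_none _ isL _ fillB_x.1, sub_zero]

theorem filterS_t (m : ℕ) (y : Bool) (c : GG m →₀ ℝ) :
    (op (gx m) (relL m (Rel.t y)) c).filter (fun e => isS e.2) = 0 := by
  exact fillB_op_none _ isS _ c (fillB_t m y isS rfl rfl (fillB_ph y).2.2)

theorem filterS_s (m : ℕ) (c : GG m →₀ ℝ) :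
    (op (gx m) (relL m Rel.s) c).filter (fun e => isS e.2) = op (gx m) (relL m Rel.s) c := by
  exact fillB_op_all _ isS _ c (fillB_s m isS _ rfl)

theorem filterS_b (m : ℕ) (c : GG m →₀ ℝ) :
    (op (gx m) (relL m Rel.b) c).filter (fun e => isS e.2) = 0 := by
  refine fillB_op_none _ isS _ c fun q hq => ?_
  rw [relL, List.mem_append] at hq
  rcases hq with hq | hq
  · exact (fillB_rep m).2.2 q hq
  · exact fillB_inv fillB_x.2.2 q hq

end Pool.MP_ed1a61_al.Irr
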