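import Pool.Agent.Lib.MP_ed1a61_al.Irr.FillB

/-! # Linear filling in `GG m`

Let `val L = 1`, `z = chL g L`, `n = L.length`, `nrm z ≤ n` (`nrm_chL_le`). By `exists_chain` there
is `c : Rel → (GG m →₀ ℝ)` with `z = Σ_r op (relL r) (c r)` (`Finset.sum` over `Rel` =
`t false, t true, s, b`).
(1) Filter on the `h`-edges (`filterH_*`): `z.filter = - op (xPL h) (c b)`, so by `norm_h`
`4 nrm (c b) ≤ nrm (z.filter) ≤ n` (`nrm_filter_le`, `nrm_neg`).
(2) Filter on the `l`-edges: `Σ_y op (phL y) (c (t y)) = Σ_y shiftT y (c (t y)) + op (b^m) (c b)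
- z.filter`; by `norm_l`, `nrm_shiftT_le`, `nrm_op_le`:
`2 Σ_y nrm (c (t y)) ≤ Σ_y nrm (c (t y)) + m nrm (c b) + n`, so
`Σ_y nrm (c (t y)) ≤ (m + 1) n`.
(3) Filter on the `s`-edges: `z.filter = op (relL s) (c s)`. Put `c' g = z (g, s) / 2`. From
`z (g, s) = c s g + c s (g s⁻¹)` and `s² = 1`: `z (g s, s) = z (g, s)`, so
`op (relL s) c' = z.filter = op (relL s) (c s)`. `nrm c' ≤ n / 2`.
Replace `c s` by `c'`. Total norm at most `(m + 3) n`. Then `linFill_of_chain`.

`linFill_GG` is the conclusion. -/

set_option autoImplicit false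

namespace Pool.MP_ed1a61_al.Irr

private theorem mk_relL (m : ℕ) (r : Rel) :
    (PresentedGroup.mk (Set.range fun r => FreeGroup.mk (relL m r)) (FreeGroup.mk (relL m r)) :
      GG m) = 1 :=
  (QuotientGroup.eq_one_iff _).2 (Subgroup.subset_normalClosure ⟨r, rfl⟩)

private theorem val_eq_mk (m : ℕ) (L : List (Gen × Bool)) :
    val (gx m) L = PresentedGroup.mk (Set.range fun r => FreeGroup.mk (relL m r))
      (FreeGroup.mk L) := by
  induction L with
  | nil => rfl
  | cons q L ih =>
    have h1 : (FreeGroup.mk (q :: L) : FreeGroup Gen) = FreeGroup.mk [q] * FreeGroup.mk L := rfl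
    rw [h1, map_mul, ← ih]
    have h2 : val (gx m) (q :: L) = lv (gx m) q * val (gx m) L := by
      simp [val]
    rw [h2]
    congr 1
    obtain ⟨y, b⟩ := q
    cases b
    · rfl
    · rfl

private theorem val_relL (m : ℕ) (r : Rel) : val (gx m) (relL m r) = 1 := by
  rw [val_eq_mk, mk_relL]

private theorem gs_mul_gs (m : ℕ) : gx m Gen.s * gx m Gen.s = 1 := by
  have h := val_relL m Rel.s
  simpa [val, relL, lv] using h

private theorem opS_apply (m : ℕ) (c : GG m →₀ ℝ) (g : GG m) (y : Gen) :
    op (gx m) (relL m Rel.s) c (g, y) =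
      if y = Gen.s then c g + c (g * (gx m Gen.s)⁻¹) else 0 := by
  classical
  induction c using Finsupp.induction_linear with
  | zero => simp [op]
  | add c c' hc hc' =>
    rw [op_add, Finsupp.add_apply, hc, hc']
    split_ifs
    · simp only [Finsupp.add_apply]
      ring
    · simp
  | single g' r =>
    rw [op_single]
    have h1 : chL (gx m) g' (relL m Rel.s) =
        Finsupp.single (g', Gen.s) 1 + (Finsupp.single (g' * gx m Gen.s, Gen.s) 1 + 0) := by
      simp [chL, relL, lv]
    rw [h1]
    by_cases hy : y = Gen.s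
    · subst hy
      have h2 : (g' * gx m Gen.s = g) ↔ (g' = g * (gx m Gen.s)⁻¹) := by
        constructor
        · rintro rfl; group
        · rintro rfl; group
      simp only [Finsupp.smul_apply, Finsupp.add_apply, Finsupp.single_apply, Prod.mk.injEq,
        and_true, smul_eq_mul, if_true, Finsupp.coe_zero, Pi.zero_apply, h2]
      split_ifs <;> ring
    · simp [hy]

theorem fill_s (m : ℕ) (z : GG m × Gen →₀ ℝ) (c : GG m →₀ ℝ)
    (h : z.filter (fun e => isS e.2) = op (gx m) (relL m Rel.s) c) :
    ∃ c' : GG m →₀ ℝ, op (gx m) (relL m Rel.s) c' = op (gx m) (relL m Rel.s) c ∧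
      nrm c' ≤ nrm z := by
  classical
  have hinj : Function.Injective (fun g : GG m => (g, Gen.s)) := fun a b h => (Prod.mk.inj h).1
  have hz : ∀ g, z (g, Gen.s) = c g + c (g * (gx m Gen.s)⁻¹) := by
    intro g
    have h1 := opS_apply m c g Gen.s
    rw [← h, Finsupp.filter_apply_pos _ _ (by rfl)] at h1
    rw [h1, if_pos rfl]
  set d : GG m →₀ ℝ := Finsupp.comapDomain (fun g : GG m => (g, Gen.s)) z hinj.injOn with hd
  have hda : ∀ g, d g = z (g, Gen.s) := fun g => rfl
  have hss : (gx m Gen.s)⁻¹ = gx m Gen.s := inv_eq_of_mul_eq_one_left (gs_mul_gs m)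
  refine ⟨(1 / 2 : ℝ) • d, ?_, ?_⟩
  · ext ⟨g, y⟩
    rw [opS_apply, opS_apply]
    split_ifs
    · simp only [Finsupp.smul_apply, hda, smul_eq_mul, hz, hss]
      rw [mul_assoc g, gs_mul_gs, mul_one]
      ring
    · rfl
  · rw [nrm_smul]
    have h1 : nrm d ≤ nrm z := by
      unfold nrm Finsupp.sum
      have h2 : ∑ a ∈ d.support, |d a| =
          ∑ e ∈ d.support.image (fun g : GG m => (g, Gen.s)), |z e| := by
        rw [Finset.sum_image (fun a _ b _ h => hinj h)]
        rfl
      rw [h2]
      refine Finset.sum_le_sum_of_subset_of_nonneg ?_ fun _ _ _ => abs_nonneg _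
      intro e he
      obtain ⟨g, hg, rfl⟩ := Finset.mem_image.1 he
      rw [Finsupp.mem_support_iff] at hg ⊢
      exact hg
    have h3 : |(1 / 2 : ℝ)| = 1 / 2 := abs_of_pos (by norm_num)
    have h4 := nrm_nonneg z
    rw [h3]
    linarith

private theorem sum_rel {M : Type} [AddCommMonoid M] (f : Rel → M) :
    ∑ r, f r = f (Rel.t false) + f (Rel.t true) + f Rel.s + f Rel.b := by
  have h : (Finset.univ : Finset Rel) = {Rel.t false, Rel.t true, Rel.s, Rel.b} := by
    ext r
    rcases r with (_ | _) | _ | _ <;> simp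
  rw [h, Finset.sum_insert (by decide), Finset.sum_insert (by decide),
    Finset.sum_insert (by decide), Finset.sum_singleton]
  simp only [add_assoc]

theorem linFill_GG (m : ℕ)
    (h1 : Function.Injective (FreeGroup.lift (fun y : Bool => gx m (Gen.l y))))
    (h2 : Function.Injective (FreeGroup.lift (fun k : Fin 4 => gx m (Gen.h k)))) :
    LinFill (gx m) (relL m) (m + 3) := by
  refine linFill_of_chain (relL m) _ fun g L hL => ?_
  obtain ⟨c, hc⟩ := exists_chain (relL m) g L hL
  have hn : nrm (chL (gx m) g L) ≤ L.length := nrm_chL_le g L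
  change chL (gx m) g L = ∑ l, op (gx m) (relL m l) (c l) at hc
  rw [sum_rel] at hc
  set z := chL (gx m) g L with hz
  have hcH := congrArg (Finsupp.filter (fun e : GG m × Gen => isH e.2)) hc
  have hcL := congrArg (Finsupp.filter (fun e : GG m × Gen => isL e.2)) hc
  have hcS := congrArg (Finsupp.filter (fun e : GG m × Gen => isS e.2)) hc
  simp only [Finsupp.filter_add, filterH_t, filterH_s, filterH_b, zero_add] at hcH
  simp only [Finsupp.filter_add, filterL_t, filterL_s, filterL_b, add_zero] at hcL
  simp only [Finsupp.filter_add, filterS_t, filterS_s, filterS_b, zero_add, add_zero] at hcS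
  -- the edges `h`
  have e1 : 4 * nrm (c Rel.b) ≤ L.length := by
    refine (norm_h m h2 _).trans ?_
    rw [← nrm_neg, ← hcH]
    exact (nrm_filter_le _ _).trans hn
  -- the edges `l`
  have e2 : 2 * (nrm (c (Rel.t false)) + nrm (c (Rel.t true))) ≤
      nrm (c (Rel.t false)) + nrm (c (Rel.t true)) + m * nrm (c Rel.b) + L.length := by
    have h3 := norm_l m h1 fun y => c (Rel.t y)
    rw [Fintype.sum_bool, Fintype.sum_bool] at h3
    have h4 : op (gx m) (phL true) (c (Rel.t true)) + op (gx m) (phL false) (c (Rel.t false)) =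
        shiftT m false (c (Rel.t false)) + shiftT m true (c (Rel.t true)) +
          op (gx m) (List.replicate m (Gen.l true, true)) (c Rel.b) +
            -(z.filter fun e => isL e.2) := by
      rw [hcL]
      abel
    have h5 : nrm (op (gx m) (phL true) (c (Rel.t true)) +
        op (gx m) (phL false) (c (Rel.t false))) ≤
        nrm (c (Rel.t false)) + nrm (c (Rel.t true)) + m * nrm (c Rel.b) + L.length := by
      rw [h4]
      refine (nrm_add_le _ _).trans (add_le_add ((nrm_add_le _ _).trans (add_le_add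
        ((nrm_add_le _ _).trans (add_le_add (nrm_shiftT_le _ _ _) (nrm_shiftT_le _ _ _))) ?_)) ?_)
      · simpa using nrm_op_le (x := gx m) (List.replicate m (Gen.l true, true)) (c Rel.b)
      · rw [nrm_neg]
        exact (nrm_filter_le _ _).trans hn
    linarith
  -- the edges `s`
  obtain ⟨c', hc', hn'⟩ := fill_s m z (c Rel.s) hcS
  refine ⟨fun r => if r = Rel.s then c' else c r, ?_, ?_⟩
  · change z = ∑ l, op (gx m) (relL m l) (if l = Rel.s then c' else c l)
    rw [sum_rel, if_neg (by decide), if_neg (by decide), if_pos rfl, if_neg (by decide), hc', hc]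
  · rw [sum_rel]
    beta_reduce
    rw [if_neg (by decide), if_neg (by decide), if_pos rfl, if_neg (by decide)]
    have h6 : (0 : ℝ) ≤ m := Nat.cast_nonneg m
    have h7 := nrm_nonneg (c Rel.b)
    have h8 : (m : ℝ) * nrm (c Rel.b) ≤ m * L.length :=
      mul_le_mul_of_nonneg_left (by linarith) h6
    nlinarith

/-- the four point condition for the group `GG m` -/
theorem four_point_GG (m : ℕ)
    (h1 : Function.Injective (FreeGroup.lift (fun y : Bool => gx m (Gen.l y))))
    (h2 : Function.Injective (FreeGroup.lift (fun k : Fin 4 => gx m (Gen.h k)))) :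
    LinFill (gx m) (relL m) (m + 3) ∧
      (∀ g : GG m, ∃ L, val (gx m) L = g) ∧ (∀ r, val (gx m) (relL m r) = 1) ∧
      ∀ r, (relL m r).length ≤ m + 30 := by
  refine ⟨linFill_GG m h1 h2, fun g => ?_, val_relL m, fun r => ?_⟩
  · obtain ⟨w, rfl⟩ := PresentedGroup.mk_surjective _ g
    exact ⟨w.toWord, by rw [val_eq_mk, FreeGroup.mk_toWord]⟩
  · rcases r with (_ | _) | _ | _
    · have : (relL m (Rel.t false)).length = 25 := rfl
      omega
    · have : (relL m (Rel.t true)).length = 30 := rfl
      omega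
    · have : (relL m Rel.s).length = 2 := rfl
      omega
    · have : (relL m Rel.b).length = m + 8 := by
        simp [relL, xPL, FreeGroup.invRev]
      omega

end Pool.MP_ed1a61_al.Irr
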