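import Pool.Agent.Lib.MP_ed1a61_al.Irr.SlimStep

/-! # Slim triangles and the four point condition

`exists_slim`: `R₀ = 30 E + 1`. For every `n`: `Slim n n` holds (take `i = 0`, `γ₁ 0 = a`,
`dG p a ≤ dG a b ≤ n`), let `R` be minimal with `Slim n R` (`Nat.find`); if `R > R₀` then
`slim_step` contradicts minimality; so `R ≤ R₀`, and `Slim n R` implies `Slim n R₀`.

`four_point`: (T): if `dG a p + dG p b = dG a b` then for every `y`
`dG a p + dG p y ≤ dG a y + 2 R₀` or `dG b p + dG p y ≤ dG b y + 2 R₀`. (Take geodesics from `a`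
to `y` and from `b` to `y`, a point `q` on one of them, say the first, with `dG p q ≤ R₀`:
`dG a p + dG p y ≤ dG a q + R₀ + R₀ + dG q y`.) Now let `a b c e` be given. Let `γ` be a geodesic
from `a` to `c`, put `f₁ i = dG a (γ i) + dG (γ i) b` and `f₂ i = dG c (γ i) + dG (γ i) b`.
`f₁ 0 = dG a b ≤ dG a b + 2R₀`. Let `i` be the largest index `≤ dG a c` with
`f₁ i ≤ dG a b + 2 R₀`. If `i = dG a c` then `f₂ i = dG c b`. Otherwise
`f₁ (i+1) > dG a b + 2R₀`, so by (T) `f₂ (i+1) ≤ dG c b + 2R₀` and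
`f₂ i ≤ dG c b + 2R₀ + 2`. So `p = γ i` has `f₁ ≤ dG a b + 2R₀`, `f₂ ≤ dG c b + 2R₀ + 2`.
Apply (T) to `p` and `e`: either `dG a p + dG p e ≤ dG a e + 2R₀`, then
`dG a c + dG b e ≤ dG a p + dG p c + dG b p + dG p e ≤ dG a e + dG b c + 4R₀ + 2`;
or `dG c p + dG p e ≤ dG c e + 2 R₀`, then `dG a c + dG b e ≤ dG a b + dG c e + 4R₀`. -/

set_option autoImplicit false

namespace Pool.MP_ed1a61_al.Irr

variable {G X : Type} [Group G] {x : X → G}

private theorem four_mono {n R R' : ℕ} (h : Slim x n R) (hR : R ≤ R') : Slim x n R' := by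
  intro a b y p γ₁ γ₂ h1 h2 h3 h4 h5 h6 h7 h8
  rcases h a b y p γ₁ γ₂ h1 h2 h3 h4 h5 h6 h7 h8 with ⟨i, hi, hi'⟩ | ⟨i, hi, hi'⟩
  · exact Or.inl ⟨i, hi, hi'.trans hR⟩
  · exact Or.inr ⟨i, hi, hi'.trans hR⟩

private theorem four_T (hgen : ∀ g : G, ∃ L, val x L = g) {R₀ : ℕ} (h : ∀ n, Slim x n R₀)
    {a b p : G} (hp : dG x a p + dG x p b = dG x a b) (y : G) :
    dG x a p + dG x p y ≤ dG x a y + 2 * R₀ ∨ dG x b p + dG x p y ≤ dG x b y + 2 * R₀ := by
  obtain ⟨γ₁, g1, g2, g3⟩ := exists_geo hgen a y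
  obtain ⟨γ₂, k1, k2, k3⟩ := exists_geo hgen b y
  rcases h _ a b y p γ₁ γ₂ hp g1 g2 g3 k1 k2 k3 le_rfl with ⟨i, hi, hi'⟩ | ⟨i, hi, hi'⟩
  · left
    have e1 := g1 0 i (Nat.zero_le i) hi
    have e2 := g1 i _ hi le_rfl
    rw [g2] at e1
    rw [g3] at e2
    have t1 := dG_triangle hgen a (γ₁ i) p
    have t2 := dG_triangle hgen p (γ₁ i) y
    rw [dG_comm (γ₁ i) p] at t1
    omega
  · right
    have e1 := k1 0 i (Nat.zero_le i) hi
    have e2 := k1 i _ hi le_rfl
    rw [k2] at e1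
    rw [k3] at e2
    have t1 := dG_triangle hgen b (γ₂ i) p
    have t2 := dG_triangle hgen p (γ₂ i) y
    rw [dG_comm (γ₂ i) p] at t1
    omega

private theorem four_mid (hgen : ∀ g : G, ∃ L, val x L = g) {R₀ : ℕ} (h : ∀ n, Slim x n R₀)
    (a b c : G) : ∃ p, dG x a p + dG x p c = dG x a c ∧
      dG x a p + dG x p b ≤ dG x a b + 2 * R₀ ∧ dG x c p + dG x p b ≤ dG x c b + 2 * R₀ + 2 := by
  classical
  obtain ⟨γ, g1, g2, g3⟩ := exists_geo hgen a c
  have ha : ∀ i ≤ dG x a c, dG x a (γ i) = i := by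
    intro i hi
    have e1 := g1 0 i (Nat.zero_le i) hi
    rw [g2, Nat.sub_zero] at e1
    exact e1
  have hc : ∀ i ≤ dG x a c, dG x (γ i) c = dG x a c - i := by
    intro i hi
    have e1 := g1 i _ hi le_rfl
    rw [g3] at e1
    exact e1
  by_cases hall : ∀ i ≤ dG x a c, dG x a (γ i) + dG x (γ i) b ≤ dG x a b + 2 * R₀
  · have h1 := hall _ le_rfl
    rw [g3] at h1
    refine ⟨c, ?_, h1, ?_⟩
    · rw [dG_self, add_zero]
    · rw [dG_self, zero_add]
      omega
  · push Not at hall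
    have hex : ∃ i, i ≤ dG x a c ∧ dG x a b + 2 * R₀ < dG x a (γ i) + dG x (γ i) b := hall
    obtain ⟨hk1, hk2⟩ := Nat.find_spec hex
    have hmin := fun m => @Nat.find_min _ _ hex m
    obtain ⟨k, hk⟩ : ∃ k, k = Nat.find hex := ⟨_, rfl⟩
    rw [← hk] at hk1 hk2 hmin
    rcases k with _ | j
    · rw [g2, dG_self, zero_add] at hk2
      omega
    · have hj : j ≤ dG x a c := by omega
      have h3 := hmin j (Nat.lt_succ_self j)
      rw [not_and, not_lt] at h3
      have h4 := h3 hj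
      have h5 : dG x a (γ (j + 1)) + dG x (γ (j + 1)) c = dG x a c := by
        rw [ha _ hk1, hc _ hk1]
        omega
      have h6 : dG x c (γ (j + 1)) + dG x (γ (j + 1)) b ≤ dG x c b + 2 * R₀ := by
        rcases four_T hgen h h5 b with h7 | h7
        · omega
        · exact h7
      have h8 := g1 j (j + 1) (Nat.le_succ j) hk1
      have h9 : dG x (γ j) (γ (j + 1)) = 1 := by omega
      have t1 := dG_triangle hgen c (γ (j + 1)) (γ j)
      have t2 := dG_triangle hgen (γ j) (γ (j + 1)) b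
      rw [dG_comm (γ (j + 1)) (γ j)] at t1
      refine ⟨γ j, ?_, h4, by omega⟩
      rw [ha _ hj, hc _ hj]
      omega

theorem exists_slim (hgen : ∀ g : G, ∃ L, val x L = g) (E : ℕ)
    (hs : ∀ (z u v : G) (R n : ℕ), dG x u z + dG x z v = dG x u v → R ≤ dG x u z →
      R ≤ dG x z v → Conn x z R n v u → R * (R - 1) ≤ E * (n + dG x u v)) :
    ∀ n, Slim x n (30 * E + 1) := by
  classical
  intro n
  have hn : Slim x n n := by
    intro a b y p γ₁ γ₂ h1 h2 h3 h4 h5 h6 h7 h8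
    refine Or.inl ⟨0, Nat.zero_le _, ?_⟩
    rw [h3, dG_comm]
    omega
  have hex : ∃ R, Slim x n R := ⟨n, hn⟩
  by_contra hcon
  have hbig : 30 * E + 1 < Nat.find hex := by
    by_contra hle
    exact hcon (four_mono (Nat.find_spec hex) (not_lt.1 hle))
  have h1 := slim_step hgen E hs n _ (Nat.find_spec hex) hbig
  exact Nat.find_min hex (Nat.sub_lt (by omega) Nat.one_pos) h1

theorem four_point (hgen : ∀ g : G, ∃ L, val x L = g) (R₀ : ℕ) (h : ∀ n, Slim x n R₀)
    (a b c e : G) :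
    dG x a c + dG x b e ≤ max (dG x a b + dG x c e) (dG x a e + dG x b c) +
      2 * (2 * R₀ + 1) := by
  obtain ⟨p, h1, h2, h3⟩ := four_mid hgen h a b c
  have t1 := dG_triangle hgen b p e
  have m1 := le_max_left (dG x a b + dG x c e) (dG x a e + dG x b c)
  have m2 := le_max_right (dG x a b + dG x c e) (dG x a e + dG x b c)
  have c1 := dG_comm (x := x) b p
  have c2 := dG_comm (x := x) c p
  have c3 := dG_comm (x := x) c b
  rcases four_T hgen h h1 e with h4 | h4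
  · omega
  · omega

end Pool.MP_ed1a61_al.Irr
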