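import Pool.Agent.Lib.MP_ed1a61_al.Irr.HDefs

/-! # The group

`a = l false`, `b = l true`, `t`, `s`, `(c, d, e, f) = (h 0, h 1, h 2, h 3)`; relators
`t y t⁻¹ φ(y)⁻¹` (`y = a, b`), `s²`, `b^m ([c,d][e,f])⁻¹`. -/

set_option autoImplicit false

namespace Pool.MP_ed1a61_al.Irr

/-- the substitution `φ`; `false` is the letter `a`, `true` is the letter `b`:
`φ(a) = aaaabaabbbaabbabbaabaa`, `φ(b) = babaababaaaaaabbaaababbabab` -/
def sub : Bool → List Bool
  | false => [false, false, false, false, true, false, false, true, true, true, false, false,
      true, true, false, true, true, false, false, true, false, false]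
  | true => [true, false, true, false, false, true, false, true, false, false, false, false,
      false, false, true, true, false, false, false, true, false, true, true, false, true,
      false, true]

/-- a positive word as a signed word -/
def pos (w : List Bool) : List (Bool × Bool) := w.map fun z => (z, true)

/-- the generators -/
inductive Gen
  | l (y : Bool)
  | t
  | s
  | h (k : Fin 4)
  deriving DecidableEq

/-- the names of the relators -/
inductive Rel
  | t (y : Bool)
  | s
  | b
  deriving DecidableEq, Fintype

/-- the word `[c,d][e,f]` -/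
def xPL {X : Type} (e : Fin 4 → X) : List (X × Bool) :=
  [(e 0, true), (e 1, true), (e 0, false), (e 1, false),
    (e 2, true), (e 3, true), (e 2, false), (e 3, false)]

/-- the word `φ(y)` in the generators `l false`, `l true` -/
def phL (y : Bool) : List (Gen × Bool) := (sub y).map fun z => (Gen.l z, true)

/-- the relators -/
def relL (m : ℕ) : Rel → List (Gen × Bool)
  | .t y => (Gen.t, true) :: (Gen.l y, true) :: (Gen.t, false) :: FreeGroup.invRev (phL y)
  | .s => [(Gen.s, true), (Gen.s, true)]
  | .b => List.replicate m (Gen.l true, true) ++ FreeGroup.invRev (xPL Gen.h)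

/-- the group `⟨a,b,t,s,c,d,e,f | t a t⁻¹ = φ(a), t b t⁻¹ = φ(b), s² = 1, b^m = [c,d][e,f]⟩` -/
abbrev GG (m : ℕ) : Type := PresentedGroup (Set.range fun r => FreeGroup.mk (relL m r))

/-- the generators of `GG m` -/
abbrev gx (m : ℕ) : Gen → GG m := PresentedGroup.of

end Pool.MP_ed1a61_al.Irr
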