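import Mathlib

/-! # MP_ed1a61, project IRR: words, word metric, chains (general definitions)

The text of the proof is in `/team-store/MP_ed1a61_h98_irrational.md` (section 3 for this part). -/

set_option autoImplicit false

namespace Pool.MP_ed1a61_al.Irr

section

variable {G X : Type} [Group G] (x : X → G)

/-- the value of a letter -/
def lv (q : X × Bool) : G := if q.2 then x q.1 else (x q.1)⁻¹

/-- the value of a word -/
def val (L : List (X × Bool)) : G := (L.map (lv x)).prod

/-- the word metric of the generating family `x` -/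
noncomputable def dG (g h : G) : ℕ :=
  sInf {n : ℕ | ∃ L : List (X × Bool), L.length = n ∧ g * val x L = h}

/-- the sum of `Φ` along the edge path with labels `L` which starts at `g` -/
def sumL (Φ : G → G → ℝ) : G → List (X × Bool) → ℝ
  | _, [] => 0
  | g, q :: L => Φ g (g * lv x q) + sumL Φ (g * lv x q) L

/-- `u` and `v` are joined by an edge path of length at most `n` all of whose vertices have
distance at least `R` from `z` -/
def Conn (z : G) (R n : ℕ) (u v : G) : Prop :=
  ∃ L : List (X × Bool), L.length ≤ n ∧ u * val x L = v ∧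
    ∀ M, M <+: L → R ≤ dG x z (u * val x M)

/-- `γ 0, ..., γ n` are the vertices of a geodesic -/
def Geo (γ : ℕ → G) (n : ℕ) : Prop := ∀ i j : ℕ, i ≤ j → j ≤ n → dG x (γ i) (γ j) = j - i

/-- linear filling (dual form): an antisymmetric function on the edges whose sum along every
relator loop is at most `B` has sum at most `C B n` along every closed path of length `n` -/
def LinFill {ι : Type} (rel : ι → List (X × Bool)) (C : ℝ) : Prop :=
  ∀ (Φ : G → G → ℝ) (B : ℝ), 0 ≤ B → (∀ g h, Φ g h = - Φ h g) →
    (∀ g l, |sumL x Φ g (rel l)| ≤ B) → ∀ (g : G) (L : List (X × Bool)), val x L = 1 →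
      |sumL x Φ g L| ≤ C * B * L.length

/-- the level function used in the slicing argument; `c k` is a point at distance `k` from `z` -/
noncomputable def lev (z : G) (c : ℕ → G) (R : ℕ) (g h : G) : ℝ :=
  ∑ k ∈ Finset.range R,
    (if dG x z g = k ∧ dG x z h = k + 1 then (dG x (c k) g : ℝ)
      else if dG x z g = k + 1 ∧ dG x z h = k then - (dG x (c k) h : ℝ) else 0)

/-- slim triangles of perimeter at most `n`: every point `p` between `a` and `b` is `R`-close to
the union of the two other sides (`γ₁` from `a` to `y` and `γ₂` from `b` to `y`) -/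
def Slim (n R : ℕ) : Prop :=
  ∀ (a b y p : G) (γ₁ γ₂ : ℕ → G), dG x a p + dG x p b = dG x a b →
    Geo x γ₁ (dG x a y) → γ₁ 0 = a → γ₁ (dG x a y) = y →
    Geo x γ₂ (dG x b y) → γ₂ 0 = b → γ₂ (dG x b y) = y →
    dG x a y + dG x b y + dG x a b ≤ n →
    (∃ i ≤ dG x a y, dG x p (γ₁ i) ≤ R) ∨ (∃ i ≤ dG x b y, dG x p (γ₂ i) ≤ R)

/-- the 1-chain of the edge path with labels `L` which starts at `g` -/
noncomputable def chL : G → List (X × Bool) → (G × X →₀ ℝ)
  | _, [] => 0
  | g, q :: L => (if q.2 then Finsupp.single (g, q.1) 1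
      else - Finsupp.single (g * (x q.1)⁻¹, q.1) 1) + chL (g * lv x q) L

/-- the 1-chain `Σ c(g) chL g u` -/
noncomputable def op (u : List (X × Bool)) (c : G →₀ ℝ) : G × X →₀ ℝ :=
  c.sum fun g r => r • chL x g u

end

/-- the norm `Σ |z(a)|` -/
noncomputable def nrm {α : Type} (z : α →₀ ℝ) : ℝ := z.sum fun _ r => |r|

end Pool.MP_ed1a61_al.Irr
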