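import Pool.Agent.Lib.MP_ed1a61_al.Irr.Met
import Pool.Agent.Lib.MP_ed1a61_al_Y.SlimD
import Pool.Agent.Lib.MP_ed1a61_al_Y.Four

/-! # Hyperbolicity from linear filling, in the form of the frozen statement

`dG_eq_sInf`: the word metric of the finite set `S` (the image of `x`) of the frozen statement is
`dG x`: a list `l` of elements of `S ∪ S⁻¹` with product `g⁻¹ * h` is the list of values of a word
in the letters (choose a letter for every element), and conversely.
`hyperbolic_of_linFill`: from block Y (`SclIrr.Y.slimD`, `SclIrr.Y.four`) for the graph `adx`. -/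

set_option autoImplicit false

namespace Pool.MP_ed1a61_al.Irr

variable {G X : Type} [Group G] {x : X → G}

private theorem exists_word (S : Set G) (hS : S = Set.range x) (l : List G)
    (hl : ∀ s ∈ l, s ∈ S ∨ s⁻¹ ∈ S) : ∃ L : List (X × Bool), L.map (lv x) = l := by
  induction l with
  | nil => exact ⟨[], rfl⟩
  | cons s l ih =>
    obtain ⟨L, hL⟩ := ih fun t ht => hl t (List.mem_cons_of_mem _ ht)
    rcases hl s (List.mem_cons_self) with h | h
    · rw [hS] at h
      obtain ⟨a, ha⟩ := h
      refine ⟨(a, true) :: L, ?_⟩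
      rw [List.map_cons, hL]
      simp [lv, ha]
    · rw [hS] at h
      obtain ⟨a, ha⟩ := h
      refine ⟨(a, false) :: L, ?_⟩
      rw [List.map_cons, hL]
      simp [lv, ha]

theorem dG_eq_sInf (S : Set G) (hS : S = Set.range x) (g h : G) :
    sInf {n : ℕ | ∃ l : List G, l.length = n ∧ (∀ s ∈ l, s ∈ S ∨ s⁻¹ ∈ S) ∧
      l.prod = g⁻¹ * h} = dG x g h := by
  unfold dG
  congr 1
  ext n
  constructor
  · rintro ⟨l, hl, hs, hp⟩
    obtain ⟨L, hL⟩ := exists_word S hS l hs
    refine ⟨L, ?_, ?_⟩
    · rw [← hl, ← hL, List.length_map]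
    · rw [val, hL, hp, mul_inv_cancel_left]
  · rintro ⟨L, hL, hp⟩
    refine ⟨L.map (lv x), by rw [List.length_map, hL], ?_, ?_⟩
    · intro s hs
      rw [List.mem_map] at hs
      obtain ⟨q, _, rfl⟩ := hs
      rw [hS]
      cases hq : q.2
      · right
        exact ⟨q.1, by simp [lv, hq]⟩
      · left
        exact ⟨q.1, by simp [lv, hq]⟩
    · rw [← hp, val, inv_mul_cancel_left]

/-- adjacency in the Cayley graph -/
private def adx (x : X → G) (u v : G) : Prop := ∃ q : X × Bool, v = u * lv x q

/-- the edges of the path with labels `L` from `g` -/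
private def edx (x : X → G) : G → List (X × Bool) → List (G × G)
  | _, [] => []
  | g, q :: L => (g, g * lv x q) :: edx x (g * lv x q) L

private theorem pth_edx (g : G) (L : List (X × Bool)) :
    SclIrr.Y.Pth (adx x) g (g * val x L) (edx x g L) := by
  induction L generalizing g with
  | nil =>
    have : g * val x [] = g := by simp [val]
    rw [this]
    exact SclIrr.Y.Pth.nil g
  | cons q L ih =>
    have : g * val x (q :: L) = g * lv x q * val x L := by simp [val, mul_assoc]
    rw [this]
    exact SclIrr.Y.Pth.cons ⟨q, rfl⟩ (ih (g * lv x q))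

private theorem edx_length (g : G) (L : List (X × Bool)) : (edx x g L).length = L.length := by
  induction L generalizing g with
  | nil => rfl
  | cons q L ih => simp [edx, ih]

private theorem psum_edx (th : G → G → ℝ) (g : G) (L : List (X × Bool)) :
    SclIrr.Y.psum th (edx x g L) = sumL x th g L := by
  induction L generalizing g with
  | nil => simp [edx, sumL]
  | cons q L ih => simp [edx, sumL, ih]

private theorem word_of_pth {u v : G} {l : List (G × G)} (h : SclIrr.Y.Pth (adx x) u v l) :
    ∃ L : List (X × Bool), edx x u L = l ∧ u * val x L = v := by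
  induction h with
  | nil u => exact ⟨[], rfl, by simp [val]⟩
  | @cons u w v l h1 _ ih =>
    obtain ⟨q, hq⟩ := h1
    obtain ⟨L, hL, hv⟩ := ih
    refine ⟨q :: L, ?_, ?_⟩
    · rw [edx, ← hq, hL]
    · rw [← hv, hq]
      simp [val, mul_assoc]

private theorem gm_adx (hgen : ∀ g : G, ∃ L, val x L = g) : SclIrr.Y.Gm (adx x) (dG x) where
  self := dG_self
  symm := dG_comm
  tri := dG_triangle hgen
  adjs := by
    rintro u v ⟨q, rfl⟩
    exact ⟨(q.1, !q.2), by rw [lv_not, mul_inv_cancel_right]⟩
  one := by
    rintro u v ⟨q, rfl⟩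
    exact dG_lv u q
  geo := by
    intro u v
    obtain ⟨L, hL, hv⟩ := exists_len hgen u v
    refine ⟨edx x u L, ?_, ?_⟩
    · have := pth_edx (x := x) u L
      rwa [hv] at this
    · rw [edx_length, hL]

theorem hyperbolic_of_linFill {ι : Type} (rel : ι → List (X × Bool))
    (hgen : ∀ g : G, ∃ L, val x L = g) (hrel : ∀ l, val x (rel l) = 1) (r : ℕ)
    (hr : ∀ l, (rel l).length ≤ r) (C : ℝ) (hC : 0 ≤ C) (hfill : LinFill x rel C) :
    ∃ δ : ℕ, ∀ a b c e : G,
      dG x a c + dG x b e ≤ max (dG x a b + dG x c e) (dG x a e + dG x b c) + 2 * δ := by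
  have hG := gm_adx hgen
  have hL : SclIrr.Y.LinFillD (adx x) C r := by
    intro th B hB hth hf y l hl
    obtain ⟨L, hL, hv⟩ := word_of_pth hl
    have hv1 : val x L = 1 := by
      have : y * val x L = y * 1 := by rw [hv, mul_one]
      exact mul_left_cancel this
    rw [← hL, psum_edx, edx_length]
    refine hfill th B hB (fun g h => hth h g) (fun g j => ?_) y L hv1
    rw [← psum_edx]
    refine hf g _ ?_ ?_
    · have := pth_edx (x := x) g (rel j)
      rwa [hrel j, mul_one] at this
    · rw [edx_length]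
      exact hr j
  obtain ⟨R0, hR0⟩ := exists_nat_ge (30 * (C * (r : ℝ) ^ 2) + 1)
  exact ⟨2 * R0 + 1, SclIrr.Y.four hG (SclIrr.Y.slimD hG hC hL hR0)⟩

end Pool.MP_ed1a61_al.Irr
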