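import Pool.Agent.Lib.MP_ed1a61_al.Irr.HDefs

/-! # The word metric: first facts

`val x` is multiplicative (`List.map_append`, `List.prod_append`), `val x (invRev L) = (val x L)⁻¹`
(induction; or via `FreeGroup.lift_mk`, `FreeGroup.invRev`), `dG` is a left invariant metric with
values in `ℕ`: for `dG x g h` the infimum is attained when `x` generates (`Nat.sInf_mem`),
symmetry by
`invRev`, triangle inequality by concatenation. -/

set_option autoImplicit false

namespace Pool.MP_ed1a61_al.Irr

variable {G X : Type} [Group G] {x : X → G}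

theorem val_nil : val x [] = 1 := by
  rfl

theorem val_cons (q : X × Bool) (L : List (X × Bool)) : val x (q :: L) = lv x q * val x L := by
  rw [val, val, List.map_cons, List.prod_cons]

theorem val_append (L M : List (X × Bool)) : val x (L ++ M) = val x L * val x M := by
  rw [val, val, val, List.map_append, List.prod_append]

theorem lv_not (q : X × Bool) : lv x (q.1, !q.2) = (lv x q)⁻¹ := by
  obtain ⟨a, b⟩ := q
  cases b <;> simp [lv]

theorem val_invRev (L : List (X × Bool)) : val x (FreeGroup.invRev L) = (val x L)⁻¹ := by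
  induction L with
  | nil => simp [val_nil]
  | cons q L ih =>
    have h : FreeGroup.invRev (q :: L) = FreeGroup.invRev L ++ [(q.1, !q.2)] := by
      simp [FreeGroup.invRev]
    rw [h, val_append, ih, val_cons, val_cons, val_nil, mul_one, lv_not, mul_inv_rev]

theorem lift_mk_eq_val (L : List (X × Bool)) :
    FreeGroup.lift x (FreeGroup.mk L) = val x L := by
  rw [FreeGroup.lift_mk, val]
  congr 1
  refine List.map_congr_left fun q _ => ?_
  rw [lv, Bool.cond_eq_ite]

theorem val_mem_closure (L : List (X × Bool)) :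
    val x L ∈ Subgroup.closure (Set.range x) := by
  induction L with
  | nil => exact Subgroup.one_mem _
  | cons q L ih =>
    rw [val_cons]
    refine Subgroup.mul_mem _ ?_ ih
    have h : x q.1 ∈ Subgroup.closure (Set.range x) := Subgroup.subset_closure ⟨q.1, rfl⟩
    rw [lv]
    split
    · exact h
    · exact Subgroup.inv_mem _ h

theorem exists_val_of_closure (h : Subgroup.closure (Set.range x) = ⊤) (g : G) :
    ∃ L, val x L = g := by
  have hg : g ∈ Subgroup.closure (Set.range x) := by rw [h]; exact Subgroup.mem_top g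
  induction hg using Subgroup.closure_induction with
  | mem g hg =>
    obtain ⟨a, rfl⟩ := hg
    exact ⟨[(a, true)], by rw [val_cons, val_nil, mul_one]; rfl⟩
  | one => exact ⟨[], val_nil⟩
  | mul g k _ _ hg hk =>
    obtain ⟨L, hL⟩ := hg
    obtain ⟨M, hM⟩ := hk
    exact ⟨L ++ M, by rw [val_append, hL, hM]⟩
  | inv g _ hg =>
    obtain ⟨L, hL⟩ := hg
    exact ⟨FreeGroup.invRev L, by rw [val_invRev, hL]⟩

theorem dG_le {g k : G} {L : List (X × Bool)} (h : g * val x L = k) :
    dG x g k ≤ L.length := by
  exact Nat.sInf_le ⟨L, rfl, h⟩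

theorem exists_len (hgen : ∀ g : G, ∃ L, val x L = g) (g h : G) :
    ∃ L : List (X × Bool), L.length = dG x g h ∧ g * val x L = h := by
  obtain ⟨L, hL⟩ := hgen (g⁻¹ * h)
  exact Nat.sInf_mem (s := {n : ℕ | ∃ L : List (X × Bool), L.length = n ∧ g * val x L = h})
    ⟨L.length, L, rfl, by rw [hL, mul_inv_cancel_left]⟩

theorem dG_self (g : G) : dG x g g = 0 := by
  have h : dG x g g ≤ ([] : List (X × Bool)).length := dG_le (by rw [val_nil, mul_one])
  exact Nat.le_zero.1 h

theorem dG_comm (g h : G) : dG x g h = dG x h g := by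
  have key : ∀ (n : ℕ) (g h : G), (∃ L : List (X × Bool), L.length = n ∧ g * val x L = h) →
      ∃ L : List (X × Bool), L.length = n ∧ h * val x L = g := by
    rintro n g h ⟨L, hn, hL⟩
    exact ⟨FreeGroup.invRev L, by rw [FreeGroup.invRev_length, hn],
      by rw [val_invRev, ← hL, mul_inv_cancel_right]⟩
  rw [dG, dG]
  congr 1
  ext n
  exact ⟨key n g h, key n h g⟩

theorem dG_triangle (hgen : ∀ g : G, ∃ L, val x L = g) (g h k : G) :
    dG x g k ≤ dG x g h + dG x h k := by
  obtain ⟨L, hL, hL'⟩ := exists_len hgen g h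
  obtain ⟨M, hM, hM'⟩ := exists_len hgen h k
  rw [← hL, ← hM, ← List.length_append]
  exact dG_le (by rw [val_append, ← mul_assoc, hL', hM'])

theorem dG_mul_left (k g h : G) : dG x (k * g) (k * h) = dG x g h := by
  rw [dG, dG]
  congr 1
  ext n
  simp only [Set.mem_ofPred_eq, mul_assoc, mul_right_inj]

theorem dG_eq_zero (hgen : ∀ g : G, ∃ L, val x L = g) {g h : G} (h0 : dG x g h = 0) :
    g = h := by
  obtain ⟨L, hL, hL'⟩ := exists_len hgen g h
  rw [h0, List.length_eq_zero_iff] at hL
  rw [← hL', hL, val_nil, mul_one]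

theorem dG_lv (g : G) (q : X × Bool) : dG x g (g * lv x q) ≤ 1 := by
  have h : dG x g (g * lv x q) ≤ [q].length :=
    dG_le (by rw [val_cons, val_nil, mul_one])
  exact h

end Pool.MP_ed1a61_al.Irr
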