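import Pool.Agent.Lib.MP_ed1a61_al.Irr.Met

/-! # Geodesics and paths outside of balls

`exists_geo`: take a word `L` of minimal length with `u * val L = v` (`exists_len`) and
`γ i = u * val (L.take i)`; `dG (γ i) (γ j) ≤ j - i` by the subword, and `≥` by the triangle
inequality and minimality. `exists_between` is a special case. `Conn` : concatenation, `invRev`
(prefixes of `invRev L` correspond to complements of prefixes of `L`), monotonicity.
`Conn.of_geo`: for a step `dG (γ i) (γ (i+1)) = 1` there is a one letter word (`exists_len`); the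
vertices of the resulting path are the `γ i` with `i` between `s` and `t`; use induction on `t - s`
(`Conn.trans`) for `s ≤ t` and symmetry for `t ≤ s`. `Conn.of_ball`: a geodesic word from `u` to
`v` of length `≤ k`; all its vertices `w` have `dG u w ≤ k`, so `dG z w ≥ dG z u - k ≥ R`. -/

set_option autoImplicit false

namespace Pool.MP_ed1a61_al.Irr

variable {G X : Type} [Group G] {x : X → G}

theorem exists_geo (hgen : ∀ g : G, ∃ L, val x L = g) (u v : G) :
    ∃ γ : ℕ → G, Geo x γ (dG x u v) ∧ γ 0 = u ∧ γ (dG x u v) = v := by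
  obtain ⟨L, hL, hv⟩ := exists_len hgen u v
  have h0 : u * val x (L.take 0) = u := by rw [List.take_zero, val_nil, mul_one]
  have hn : u * val x (L.take (dG x u v)) = v := by
    rw [← hL, List.take_length, hv]
  have hle : ∀ i j : ℕ, i ≤ j →
      dG x (u * val x (L.take i)) (u * val x (L.take j)) ≤ j - i := by
    intro i j hij
    have h1 : L.take i ++ (L.take j).drop i = L.take j := by
      have h2 := List.take_append_drop i (L.take j)
      rwa [List.take_take, min_eq_left hij] at h2
    have h3 : u * val x (L.take i) * val x ((L.take j).drop i) = u * val x (L.take j) := by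
      rw [mul_assoc, ← val_append, h1]
    refine (dG_le h3).trans ?_
    rw [List.length_drop, List.length_take]
    omega
  refine ⟨fun i => u * val x (L.take i), fun i j hij hj => ?_, h0, hn⟩
  refine le_antisymm (hle i j hij) ?_
  have h1 := hle 0 i (Nat.zero_le i)
  have h2 := hle j (dG x u v) hj
  rw [h0] at h1
  rw [hn] at h2
  have h3 := dG_triangle hgen u (u * val x (L.take i)) v
  have h4 := dG_triangle hgen (u * val x (L.take i)) (u * val x (L.take j)) v
  show j - i ≤ dG x (u * val x (L.take i)) (u * val x (L.take j))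
  omega

theorem exists_between (hgen : ∀ g : G, ∃ L, val x L = g) {u v : G} {k : ℕ}
    (hk : k ≤ dG x u v) : ∃ w, dG x u w = k ∧ dG x w v = dG x u v - k := by
  obtain ⟨γ, hγ, h0, hn⟩ := exists_geo hgen u v
  refine ⟨γ k, ?_, ?_⟩
  · have h1 := hγ 0 k (Nat.zero_le k) hk
    rw [h0] at h1
    simpa using h1
  · have h1 := hγ k (dG x u v) hk le_rfl
    rwa [hn] at h1

theorem Geo.sub {γ : ℕ → G} {n : ℕ} (h : Geo x γ n) {s t : ℕ} (hst : s ≤ t) (ht : t ≤ n) :
    Geo x (fun i => γ (s + i)) (t - s) := by
  intro i j hij hj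
  have h1 := h (s + i) (s + j) (by omega) (by omega)
  show dG x (γ (s + i)) (γ (s + j)) = j - i
  rw [h1]
  omega

theorem Geo.rev {γ : ℕ → G} {n : ℕ} (h : Geo x γ n) : Geo x (fun i => γ (n - i)) n := by
  intro i j hij hj
  have h1 := h (n - j) (n - i) (by omega) (by omega)
  show dG x (γ (n - i)) (γ (n - j)) = j - i
  rw [dG_comm, h1]
  omega

theorem Conn.refl {z u : G} {R : ℕ} (h : R ≤ dG x z u) : Conn x z R 0 u u := by
  refine ⟨[], le_rfl, by rw [val_nil, mul_one], fun M hM => ?_⟩
  rw [List.prefix_nil.1 hM, val_nil, mul_one]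
  exact h

theorem Conn.trans {z u v w : G} {R n m : ℕ} (h : Conn x z R n u v) (h' : Conn x z R m v w) :
    Conn x z R (n + m) u w := by
  obtain ⟨L, h1, h2, h3⟩ := h
  obtain ⟨L', h1', h2', h3'⟩ := h'
  refine ⟨L ++ L', ?_, ?_, fun M hM => ?_⟩
  · rw [List.length_append]
    omega
  · rw [val_append, ← mul_assoc, h2, h2']
  · rcases List.prefix_or_prefix_of_prefix hM (List.prefix_append L L') with h4 | ⟨M', rfl⟩
    · exact h3 M h4
    · rw [val_append, ← mul_assoc, h2]
      exact h3' M' ((List.prefix_append_right_inj L).1 hM)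

theorem Conn.symm {z u v : G} {R n : ℕ} (h : Conn x z R n u v) : Conn x z R n v u := by
  obtain ⟨L, h1, h2, h3⟩ := h
  refine ⟨FreeGroup.invRev L, ?_, ?_, fun M hM => ?_⟩
  · rwa [FreeGroup.invRev_length]
  · rw [val_invRev, ← h2, mul_inv_cancel_right]
  · obtain ⟨N, hN⟩ := hM
    have h4 : L = FreeGroup.invRev N ++ FreeGroup.invRev M := by
      rw [← FreeGroup.invRev_invRev (L₁ := L), ← hN, FreeGroup.invRev_append]
    have h5 : v * val x M = u * val x (FreeGroup.invRev N) := by
      rw [← h2, h4, val_append, val_invRev M, mul_assoc, mul_assoc, inv_mul_cancel, mul_one]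
    rw [h5]
    refine h3 _ ?_
    rw [h4]
    exact List.prefix_append _ _

theorem Conn.mono {z u v : G} {R n m : ℕ} (h : Conn x z R n u v) (hm : n ≤ m) :
    Conn x z R m u v := by
  obtain ⟨L, h1, h2, h3⟩ := h
  exact ⟨L, h1.trans hm, h2, h3⟩

private theorem Conn.of_geo_aux (hgen : ∀ g : G, ∃ L, val x L = g) {γ : ℕ → G} {n : ℕ}
    (h : Geo x γ n) {z : G} {R : ℕ} (hR : ∀ i ≤ n, R ≤ dG x z (γ i)) {s t : ℕ} (hst : s ≤ t)
    (ht : t ≤ n) : Conn x z R (t - s) (γ s) (γ t) := by
  induction t, hst using Nat.le_induction with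
  | base =>
    rw [Nat.sub_self]
    exact Conn.refl (hR s ht)
  | succ t hst ih =>
    have h1 := ih (by omega)
    have h2 : Conn x z R 1 (γ t) (γ (t + 1)) := by
      have h3 := h t (t + 1) (Nat.le_succ t) ht
      obtain ⟨L, h4, h5⟩ := exists_len hgen (γ t) (γ (t + 1))
      have h6 : L.length = 1 := by omega
      refine ⟨L, h6.le, h5, fun M hM => ?_⟩
      have h7 := hM.length_le
      rcases Nat.lt_or_ge M.length 1 with h8 | h8
      · have h9 : M = [] := List.eq_nil_of_length_eq_zero (by omega)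
        rw [h9, val_nil, mul_one]
        exact hR t (by omega)
      · have h9 : M = L := hM.eq_of_length (by omega)
        rw [h9, h5]
        exact hR (t + 1) ht
    have h3 := h1.trans h2
    have h4 : t - s + 1 = t + 1 - s := by omega
    rwa [h4] at h3

theorem Conn.of_geo (hgen : ∀ g : G, ∃ L, val x L = g) {γ : ℕ → G} {n : ℕ} (h : Geo x γ n)
    {z : G} {R : ℕ} (hR : ∀ i ≤ n, R ≤ dG x z (γ i)) {s t : ℕ} (hs : s ≤ n) (ht : t ≤ n) :
    Conn x z R (dG x (γ s) (γ t)) (γ s) (γ t) := by
  rcases le_total s t with hst | hst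
  · rw [h s t hst ht]
    exact Conn.of_geo_aux hgen h hR hst ht
  · rw [dG_comm, h t s hst hs]
    exact (Conn.of_geo_aux hgen h hR hst hs).symm

theorem Conn.of_ball (hgen : ∀ g : G, ∃ L, val x L = g) {z u v : G} {R k : ℕ}
    (h : dG x u v ≤ k) (hR : R + k ≤ dG x z u) : Conn x z R k u v := by
  obtain ⟨L, h1, h2⟩ := exists_len hgen u v
  refine ⟨L, by omega, h2, fun M hM => ?_⟩
  have h3 := hM.length_le
  have h4 : dG x u (u * val x M) ≤ M.length := dG_le rfl
  have h5 := dG_triangle hgen z (u * val x M) u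
  rw [dG_comm (u * val x M) u] at h5
  omega

end Pool.MP_ed1a61_al.Irr
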