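import Pool.Agent.Lib.MP_ed1a61_al.Irr.Met

/-! # Norms, pairings and chains: elementary rules

`pr Θ z = Σ z(a) Θ(a)`. Everything is `Finsupp.sum` algebra. `chL_append` and `chL_invRev` by
induction (the chain of `invRev L` started at the end point of `L` is minus the chain of `L`);
`pr_chL`: for an antisymmetric `Φ` the pairing of `fun e => Φ e.1 (e.1 * x e.2)` with `chL x g L` is `sumL x Φ g L` (for a letter
`(y, false)` at `g` the edge is `(g * (x y)⁻¹, y)` with coefficient `-1`, and
`- Φ (g * (x y)⁻¹) (g * (x y)⁻¹ * x y) = Φ g (g * (x y)⁻¹)`). -/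

set_option autoImplicit false

namespace Pool.MP_ed1a61_al.Irr

/-- the pairing of a function and a chain -/
noncomputable def pr {α : Type} (Θ : α → ℝ) (z : α →₀ ℝ) : ℝ := z.sum fun a r => r * Θ a

section

variable {α : Type}

private theorem nrm_eq (z : α →₀ ℝ) (s : Finset α) (h : z.support ⊆ s) :
    nrm z = ∑ a ∈ s, |z a| :=
  Finsupp.sum_of_support_subset z h _ (by simp)

theorem nrm_nonneg (z : α →₀ ℝ) : 0 ≤ nrm z := by
  unfold nrm Finsupp.sum
  exact Finset.sum_nonneg fun _ _ => abs_nonneg _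

theorem nrm_add_le (z z' : α →₀ ℝ) : nrm (z + z') ≤ nrm z + nrm z' := by
  classical
  have h1 := nrm_eq z (z.support ∪ z'.support) Finset.subset_union_left
  have h2 := nrm_eq z' (z.support ∪ z'.support) Finset.subset_union_right
  have h3 := nrm_eq (z + z') (z.support ∪ z'.support) Finsupp.support_add
  rw [h1, h2, h3, ← Finset.sum_add_distrib]
  refine Finset.sum_le_sum fun a _ => ?_
  rw [Finsupp.add_apply]
  exact abs_add_le _ _

theorem nrm_neg (z : α →₀ ℝ) : nrm (-z) = nrm z := by
  rw [nrm_eq (-z) z.support (by rw [Finsupp.support_neg]), nrm_eq z z.support subset_rfl]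
  refine Finset.sum_congr rfl fun a _ => ?_
  rw [Finsupp.neg_apply, abs_neg]

theorem nrm_smul (r : ℝ) (z : α →₀ ℝ) : nrm (r • z) = |r| * nrm z := by
  rw [nrm_eq (r • z) z.support Finsupp.support_smul, nrm_eq z z.support subset_rfl,
    Finset.mul_sum]
  refine Finset.sum_congr rfl fun a _ => ?_
  rw [Finsupp.smul_apply, smul_eq_mul, abs_mul]

theorem nrm_single (a : α) (r : ℝ) : nrm (Finsupp.single a r) = |r| := by
  unfold nrm
  exact Finsupp.sum_single_index abs_zero

theorem nrm_zero : nrm (0 : α →₀ ℝ) = 0 := by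
  unfold nrm
  exact Finsupp.sum_zero_index

theorem nrm_sum_le {ι : Type} (s : Finset ι) (f : ι → α →₀ ℝ) :
    nrm (∑ i ∈ s, f i) ≤ ∑ i ∈ s, nrm (f i) := by
  classical
  induction s using Finset.induction_on with
  | empty => simp [nrm_zero]
  | insert a s ha ih =>
    rw [Finset.sum_insert ha, Finset.sum_insert ha]
    exact (nrm_add_le _ _).trans (by linarith)

theorem nrm_filter_le (P : α → Prop) [DecidablePred P] (z : α →₀ ℝ) :
    nrm (z.filter P) ≤ nrm z := by
  rw [nrm_eq (z.filter P) z.support (by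
    rw [Finsupp.support_filter]; exact Finset.filter_subset _ _), nrm_eq z z.support subset_rfl]
  refine Finset.sum_le_sum fun a _ => ?_
  rw [Finsupp.filter_apply]
  split_ifs
  · exact le_rfl
  · rw [abs_zero]
    exact abs_nonneg _

theorem pr_add (Θ : α → ℝ) (z z' : α →₀ ℝ) : pr Θ (z + z') = pr Θ z + pr Θ z' := by
  unfold pr
  exact Finsupp.sum_add_index' (fun a => by simp) (fun a b c => by ring)

theorem pr_neg (Θ : α → ℝ) (z : α →₀ ℝ) : pr Θ (-z) = - pr Θ z := by
  unfold pr
  rw [Finsupp.sum_neg_index (fun a => by simp)]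
  unfold Finsupp.sum
  rw [← Finset.sum_neg_distrib]
  exact Finset.sum_congr rfl fun a _ => by ring

theorem pr_smul (Θ : α → ℝ) (r : ℝ) (z : α →₀ ℝ) : pr Θ (r • z) = r * pr Θ z := by
  unfold pr
  rw [Finsupp.sum_smul_index (fun a => by simp)]
  unfold Finsupp.sum
  rw [Finset.mul_sum]
  exact Finset.sum_congr rfl fun a _ => by ring

theorem pr_sum {ι : Type} (Θ : α → ℝ) (s : Finset ι) (f : ι → α →₀ ℝ) :
    pr Θ (∑ i ∈ s, f i) = ∑ i ∈ s, pr Θ (f i) := by
  classical
  induction s using Finset.induction_on with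
  | empty => simp [pr]
  | insert a s ha ih => rw [Finset.sum_insert ha, Finset.sum_insert ha, pr_add, ih]

theorem pr_single (Θ : α → ℝ) (a : α) (r : ℝ) : pr Θ (Finsupp.single a r) = r * Θ a := by
  unfold pr
  exact Finsupp.sum_single_index (by simp)

theorem pr_le_nrm (Θ : α → ℝ) (hΘ : ∀ a, |Θ a| ≤ 1) (z : α →₀ ℝ) : pr Θ z ≤ nrm z := by
  unfold pr nrm Finsupp.sum
  refine Finset.sum_le_sum fun a _ => ?_
  calc z a * Θ a ≤ |z a * Θ a| := le_abs_self _
    _ = |z a| * |Θ a| := abs_mul _ _
    _ ≤ |z a| * 1 := mul_le_mul_of_nonneg_left (hΘ a) (abs_nonneg _)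
    _ = |z a| := mul_one _

end

section

variable {G X : Type} [Group G] {x : X → G}

theorem chL_append (g : G) (L M : List (X × Bool)) :
    chL x g (L ++ M) = chL x g L + chL x (g * val x L) M := by
  induction L generalizing g with
  | nil => simp [chL, val_nil]
  | cons q L ih => rw [List.cons_append, chL, chL, ih, val_cons, add_assoc, mul_assoc]

theorem chL_invRev (g : G) (L : List (X × Bool)) :
    chL x (g * val x L) (FreeGroup.invRev L) = - chL x g L := by
  induction L generalizing g with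
  | nil => simp [chL, FreeGroup.invRev]
  | cons q L ih =>
    have h1 : FreeGroup.invRev (q :: L) = FreeGroup.invRev L ++ [(q.1, !q.2)] := by
      simp [FreeGroup.invRev]
    have h2 : g * val x (q :: L) = g * lv x q * val x L := by rw [val_cons, mul_assoc]
    rw [h1, chL_append, h2, ih, val_invRev, mul_inv_cancel_right, chL]
    obtain ⟨y, b⟩ := q
    cases b <;> simp [chL, lv]

theorem nrm_chL_le (g : G) (L : List (X × Bool)) : nrm (chL x g L) ≤ L.length := by
  induction L generalizing g with
  | nil => simp [chL, nrm_zero]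
  | cons q L ih =>
    rw [chL, List.length_cons]
    have h1 : nrm (if q.2 then Finsupp.single (g, q.1) (1 : ℝ)
        else - Finsupp.single (g * (x q.1)⁻¹, q.1) 1) = 1 := by
      split_ifs
      · rw [nrm_single, abs_one]
      · rw [nrm_neg, nrm_single, abs_one]
    refine (nrm_add_le _ _).trans ?_
    rw [h1]
    push_cast
    have := ih (g * lv x q)
    linarith

theorem pr_chL (Φ : G → G → ℝ) (hΦ : ∀ g h, Φ g h = - Φ h g) (g : G) (L : List (X × Bool)) :
    pr (fun e : G × X => Φ e.1 (e.1 * x e.2)) (chL x g L) = sumL x Φ g L := by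
  induction L generalizing g with
  | nil => simp [chL, sumL, pr]
  | cons q L ih =>
    rw [chL, sumL, pr_add, ih]
    congr 1
    obtain ⟨y, b⟩ := q
    cases b
    · simp only [Bool.false_eq_true, if_false, lv]
      rw [pr_neg, pr_single, one_mul, inv_mul_cancel_right, hΦ g]
    · simp only [if_true, lv]
      rw [pr_single, one_mul]

theorem pr_op (Θ : G × X → ℝ) (u : List (X × Bool)) (c : G →₀ ℝ) :
    pr Θ (op x u c) = c.sum fun g r => r * pr Θ (chL x g u) := by
  unfold op Finsupp.sum
  rw [pr_sum]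
  exact Finset.sum_congr rfl fun g _ => pr_smul _ _ _

theorem op_add (u : List (X × Bool)) (c c' : G →₀ ℝ) :
    op x u (c + c') = op x u c + op x u c' := by
  unfold op
  exact Finsupp.sum_add_index' (fun a => zero_smul _ _) (fun a b c => add_smul _ _ _)

theorem op_neg (u : List (X × Bool)) (c : G →₀ ℝ) : op x u (-c) = - op x u c := by
  unfold op
  rw [Finsupp.sum_neg_index (h := fun g r => r • chL x g u) (fun a => zero_smul _ _)]
  unfold Finsupp.sum
  rw [← Finset.sum_neg_distrib]
  exact Finset.sum_congr rfl fun a _ => neg_smul _ _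

theorem op_single (u : List (X × Bool)) (g : G) (r : ℝ) :
    op x u (Finsupp.single g r) = r • chL x g u := by
  unfold op
  exact Finsupp.sum_single_index (zero_smul _ _)

theorem nrm_op_le (u : List (X × Bool)) (c : G →₀ ℝ) :
    nrm (op x u c) ≤ u.length * nrm c := by
  have h1 : nrm (op x u c) ≤ ∑ g ∈ c.support, nrm (c g • chL x g u) := nrm_sum_le _ _
  refine h1.trans ?_
  unfold nrm Finsupp.sum at *
  rw [Finset.mul_sum]
  refine Finset.sum_le_sum fun g _ => ?_
  have h2 := nrm_smul (c g) (chL x g u)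
  have h3 := nrm_chL_le (x := x) g u
  unfold nrm Finsupp.sum at h2 h3
  rw [h2, mul_comm]
  exact mul_le_mul_of_nonneg_right h3 (abs_nonneg _)

/-- the primal form of linear filling implies the dual one -/
theorem linFill_of_chain {ι : Type} [Fintype ι] (rel : ι → List (X × Bool)) (C : ℝ)
    (h : ∀ (g : G) (L : List (X × Bool)), val x L = 1 → ∃ c : ι → G →₀ ℝ,
      chL x g L = ∑ l, op x (rel l) (c l) ∧ ∑ l, nrm (c l) ≤ C * L.length) :
    LinFill x rel C := by
  intro Φ B hB hΦ hrel g L hL
  obtain ⟨c, hc, hn⟩ := h g L hL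
  rw [← pr_chL Φ hΦ g L, hc, pr_sum]
  have h1 : ∀ l, |pr (fun e : G × X => Φ e.1 (e.1 * x e.2)) (op x (rel l) (c l))| ≤
      B * nrm (c l) := by
    intro l
    rw [pr_op]
    unfold nrm Finsupp.sum
    rw [Finset.mul_sum]
    refine (Finset.abs_sum_le_sum_abs _ _).trans (Finset.sum_le_sum fun a _ => ?_)
    beta_reduce
    rw [pr_chL Φ hΦ, abs_mul, mul_comm]
    exact mul_le_mul_of_nonneg_right (hrel a l) (abs_nonneg _)
  refine (Finset.abs_sum_le_sum_abs _ _).trans ?_
  refine (Finset.sum_le_sum fun l _ => h1 l).trans ?_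
  rw [← Finset.mul_sum]
  calc B * ∑ l, nrm (c l) ≤ B * (C * L.length) := mul_le_mul_of_nonneg_left hn hB
    _ = C * B * L.length := by ring

end

end Pool.MP_ed1a61_al.Irr
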