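import Pool.Agent.Lib.MP_ed1a61_al.Irr.Met

/-! # The level function on closed paths

`lev x z c R` is antisymmetric: exchanging `g` and `h` exchanges the two cases of every summand.
Let `L` be a closed path at `g₀` of length `n`. Write `D g = dG z g`. Along an edge `(u, v)` of the path
`|D u - D v| ≤ 1` (`dG_lv`). For `k < R` let `χ_k(u,v) = 1` if `D u = k, D v = k+1`, `-1` if
`D u = k+1, D v = k`, `0` otherwise; for a path from `g` to `g'` whose steps change `D` by at most 1
the sum of `χ_k` is `[D g' ≥ k+1] - [D g ≥ k+1]`, so it is zero for a closed path. Hence the sum of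
`lev` over the closed path equals the sum over the edges of
`Σ_k (if up: dG (c k) u - dG (c k) g₀, if down: -(dG (c k) v - dG (c k) g₀))`; for every edge at
most one `k` contributes (`k = min (D u) (D v)`), and the contribution is at most
`dG u g₀ ≤ n` in absolute value (`u`, `v` are vertices of the closed path of length `n`).
So the sum is at most `n * n`. -/

set_option autoImplicit false

namespace Pool.MP_ed1a61_al.Irr

variable {G X : Type} [Group G] {x : X → G}

theorem lev_antisymm (z : G) (c : ℕ → G) (R : ℕ) (g h : G) :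
    lev x z c R g h = - lev x z c R h g := by
  unfold lev
  rw [← Finset.sum_neg_distrib]
  refine Finset.sum_congr rfl fun k _ => ?_
  by_cases h1 : dG x z g = k ∧ dG x z h = k + 1
  · have h2 : ¬ (dG x z h = k ∧ dG x z g = k + 1) := by
      rintro ⟨h3, h4⟩
      omega
    have h3 : dG x z h = k + 1 ∧ dG x z g = k := ⟨h1.2, h1.1⟩
    rw [if_pos h1, if_neg h2, if_pos h3, neg_neg]
  · by_cases h2 : dG x z g = k + 1 ∧ dG x z h = k
    · have h3 : dG x z h = k ∧ dG x z g = k + 1 := ⟨h2.2, h2.1⟩
      rw [if_neg h1, if_pos h2, if_pos h3]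
    · have h3 : ¬ (dG x z h = k ∧ dG x z g = k + 1) := fun h => h2 ⟨h.2, h.1⟩
      have h4 : ¬ (dG x z h = k + 1 ∧ dG x z g = k) := fun h => h1 ⟨h.2, h.1⟩
      rw [if_neg h1, if_neg h2, if_neg h3, if_neg h4, neg_zero]

private noncomputable def sliceF (x : X → G) (z : G) (c : ℕ → G) (R : ℕ) (g₀ u : G) : ℝ :=
  ∑ k ∈ Finset.range R, if k + 1 ≤ dG x z u then (dG x (c k) g₀ : ℝ) else 0

private theorem sliceA_abs (hgen : ∀ g : G, ∃ L, val x L = g) (c g₀ u : G) {N : ℕ}
    (hu : dG x u g₀ ≤ N) : |(dG x c u : ℝ) - dG x c g₀| ≤ N := by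
  have h1 := dG_triangle hgen c u g₀
  have h2 := dG_triangle hgen c g₀ u
  rw [dG_comm g₀ u] at h2
  have h3 : (dG x c g₀ : ℝ) ≤ dG x c u + N := by exact_mod_cast h1.trans (by omega)
  have h4 : (dG x c u : ℝ) ≤ dG x c g₀ + N := by exact_mod_cast h2.trans (by omega)
  rw [abs_le]
  constructor <;> linarith

private theorem sliceA_edge (hgen : ∀ g : G, ∃ L, val x L = g) (z : G) (c : ℕ → G) (R : ℕ)
    (g₀ u v : G) {N : ℕ} (h1 : dG x u v ≤ 1) (hu : dG x u g₀ ≤ N) (hv : dG x v g₀ ≤ N) :
    |lev x z c R u v - (sliceF x z c R g₀ v - sliceF x z c R g₀ u)| ≤ N := by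
  have h2 := dG_triangle hgen z u v
  have h3 := dG_triangle hgen z v u
  rw [dG_comm v u] at h3
  have hN : (0 : ℝ) ≤ N := Nat.cast_nonneg _
  unfold lev sliceF
  rw [← Finset.sum_sub_distrib, ← Finset.sum_sub_distrib]
  have h4 : dG x z v = dG x z u + 1 ∨ dG x z u = dG x z v + 1 ∨ dG x z u = dG x z v := by omega
  rcases h4 with h4 | h4 | h4
  · rw [Finset.sum_congr rfl (g := fun k => if dG x z u = k then
      ((dG x (c k) u : ℝ) - dG x (c k) g₀) else 0)]
    · rw [Finset.sum_ite_eq]
      split_ifs
      · exact sliceA_abs hgen _ _ _ hu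
      · rw [abs_zero]
        exact hN
    · intro k _
      by_cases hk : dG x z u = k
      · rw [if_pos ⟨hk, by omega⟩, if_pos (by omega), if_neg (by omega), if_pos hk, sub_zero]
      · rw [if_neg (fun h => hk h.1), if_neg (by omega), if_neg hk]
        by_cases hk2 : k + 1 ≤ dG x z u
        · rw [if_pos (by omega), if_pos hk2]
          ring
        · rw [if_neg (by omega), if_neg hk2]
          ring
  · rw [Finset.sum_congr rfl (g := fun k => if dG x z v = k then
      -((dG x (c k) v : ℝ) - dG x (c k) g₀) else 0)]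
    · rw [Finset.sum_ite_eq]
      split_ifs
      · rw [abs_neg]
        exact sliceA_abs hgen _ _ _ hv
      · rw [abs_zero]
        exact hN
    · intro k _
      by_cases hk : dG x z v = k
      · rw [if_neg (by omega), if_pos ⟨by omega, hk⟩, if_neg (by omega), if_pos (by omega),
          if_pos hk]
        ring
      · rw [if_neg (by omega), if_neg (fun h => hk h.2), if_neg hk]
        by_cases hk2 : k + 1 ≤ dG x z v
        · rw [if_pos hk2, if_pos (by omega)]
          ring
        · rw [if_neg hk2, if_neg (by omega)]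
          ring
  · rw [Finset.sum_eq_zero]
    · rw [abs_zero]
      exact hN
    · intro k _
      rw [if_neg (by omega), if_neg (by omega), h4, sub_self, sub_zero]

private theorem sliceA_ind (hgen : ∀ g : G, ∃ L, val x L = g) (z : G) (c : ℕ → G) (R : ℕ)
    (g₀ : G) (N : ℕ) : ∀ (L : List (X × Bool)) (u : G) (i : ℕ), dG x u g₀ ≤ i →
    i + L.length ≤ N → |sumL x (lev x z c R) u L -
      (sliceF x z c R g₀ (u * val x L) - sliceF x z c R g₀ u)| ≤ (L.length : ℝ) * N
  | [], u, i, _, _ => by
    rw [val_nil, mul_one]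
    simp [sumL]
  | q :: L, u, i, hu, hi => by
    rw [List.length_cons] at hi
    have h1 : dG x (u * lv x q) g₀ ≤ i + 1 := by
      have h2 := dG_triangle hgen (u * lv x q) u g₀
      have h3 := dG_lv (x := x) u q
      rw [dG_comm] at h3
      omega
    have h2 := sliceA_ind hgen z c R g₀ N L (u * lv x q) (i + 1) h1 (by omega)
    have h3 := sliceA_edge hgen z c R g₀ u (u * lv x q) (N := N) (dG_lv u q) (by omega)
      (by omega)
    rw [val_cons, ← mul_assoc]
    have h4 : sumL x (lev x z c R) u (q :: L) = lev x z c R u (u * lv x q) +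
        sumL x (lev x z c R) (u * lv x q) L := rfl
    rw [h4, List.length_cons]
    push_cast
    have h5 : lev x z c R u (u * lv x q) + sumL x (lev x z c R) (u * lv x q) L -
        (sliceF x z c R g₀ (u * lv x q * val x L) - sliceF x z c R g₀ u) =
        (lev x z c R u (u * lv x q) - (sliceF x z c R g₀ (u * lv x q) -
          sliceF x z c R g₀ u)) + (sumL x (lev x z c R) (u * lv x q) L -
        (sliceF x z c R g₀ (u * lv x q * val x L) - sliceF x z c R g₀ (u * lv x q))) := by
      ring
    rw [h5]
    refine (abs_add_le _ _).trans ?_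
    linarith

theorem sumL_lev_le (hgen : ∀ g : G, ∃ L, val x L = g) (z : G) (c : ℕ → G) (R : ℕ) (g : G)
    (L : List (X × Bool)) (hL : val x L = 1) :
    |sumL x (lev x z c R) g L| ≤ (L.length : ℝ) ^ 2 := by
  have h := sliceA_ind hgen z c R g L.length L g 0 (by rw [dG_self]) (by omega)
  rw [hL, mul_one, sub_self, sub_zero] at h
  refine h.trans (le_of_eq ?_)
  ring

end Pool.MP_ed1a61_al.Irr
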