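import Pool.Agent.Lib.MP_ed1a61_al.Irr.SliceA
import Pool.Agent.Lib.MP_ed1a61_al.Irr.MetGeo

/-! # The slicing estimate

Let `L₁`, `L₂` be words of minimal length from `u` to `z` and from `z` to `v` (`exists_len`) and let
`L₃` be the word of `Conn` from `v` to `u`; `L = L₁ ++ L₂ ++ L₃` is closed. Let `a = L₁.length =
dG u z`, and let `c k = u * val (L₁.take (a - k))` for `k ≤ a`, a point with `dG z (c k) = k`
(`dG` is additive along a minimal word). Use `Φ = lev x z c R`. By `sumL_lev_le` every relator
sum is at most `r ^ 2` in absolute value, so `LinFill` (with `B = r ^ 2`) gives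
`|sumL Φ u L| ≤ C * r ^ 2 * (dG u v + n)` (`L₁.length + L₂.length = dG u v`, `L₃.length ≤ n`).
On the other hand `sumL Φ u L = Σ_{k<R} 2 k = R (R - 1)`:
* along `L₁` the vertices have `dG z = a, a-1, ..., 0`; the step from distance `k+1` to `k`
  (`k < R ≤ a`) contributes `- dG (c k) (c k) = 0`, every other step contributes `0`;
* along `L₂` the vertices `w_0 = z, w_1, ...` have `dG z w_k = k`; the step from `w_k` to
  `w_{k+1}`, `k < R ≤ L₂.length`, contributes `dG (c k) w_k = 2 k`: indeed `dG u v ≤ dG u (c k) + dG (c k) w_k +
  dG w_k v = (a - k) + dG (c k) w_k + (L₂.length - k)`, and `≤` by the triangle inequality; steps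
  with `k ≥ R` contribute `0`;
* along `L₃` all vertices have distance `≥ R` from `z`, so no step is between the levels `k` and
  `k + 1` with `k < R` : contribution `0`.
(`sumL` of a concatenation: `sumL Φ g (L ++ M) = sumL Φ g L + sumL Φ (g * val L) M`.) -/

set_option autoImplicit false

namespace Pool.MP_ed1a61_al.Irr

variable {G X : Type} [Group G] {x : X → G}

theorem sumL_append (Φ : G → G → ℝ) (g : G) (L M : List (X × Bool)) :
    sumL x Φ g (L ++ M) = sumL x Φ g L + sumL x Φ (g * val x L) M := by
  induction L generalizing g with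
  | nil =>
    rw [List.nil_append, val_nil, mul_one]
    exact (zero_add _).symm
  | cons q L ih =>
    rw [List.cons_append, val_cons, ← mul_assoc]
    show Φ g (g * lv x q) + sumL x Φ (g * lv x q) (L ++ M) =
      Φ g (g * lv x q) + sumL x Φ (g * lv x q) L + sumL x Φ (g * lv x q * val x L) M
    rw [ih, add_assoc]


/-- The sum along a path as a sum over the steps. -/
private theorem slice_sum (Φ : G → G → ℝ) (g : G) (L : List (X × Bool)) :
    sumL x Φ g L = ∑ i ∈ Finset.range L.length,
      Φ (g * val x (L.take i)) (g * val x (L.take (i + 1))) := by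
  induction L generalizing g with
  | nil => rfl
  | cons q L ih =>
    rw [List.length_cons, Finset.sum_range_succ']
    show Φ g (g * lv x q) + sumL x Φ (g * lv x q) L = _
    rw [ih, add_comm]
    congr 1
    · refine Finset.sum_congr rfl fun i _ => ?_
      rw [List.take_succ_cons, List.take_succ_cons, val_cons, val_cons, mul_assoc, mul_assoc]
    · rw [List.take_zero, List.take_succ_cons, List.take_zero, val_cons, val_nil, mul_one,
        mul_one]

/-- The vertices of a word of minimal length. -/
private theorem slice_len (hgen : ∀ g : G, ∃ L, val x L = g) {u z : G} {L : List (X × Bool)}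
    (hL : L.length = dG x u z) (hv : u * val x L = z) {i : ℕ} (hi : i ≤ L.length) :
    dG x u (u * val x (L.take i)) = i ∧ dG x (u * val x (L.take i)) z = L.length - i := by
  have h1 : dG x u (u * val x (L.take i)) ≤ i := by
    refine (dG_le rfl).trans ?_
    rw [List.length_take]
    exact min_le_left _ _
  have h2 : dG x (u * val x (L.take i)) z ≤ L.length - i := by
    have h3 : u * val x (L.take i) * val x (L.drop i) = z := by
      rw [mul_assoc, ← val_append, List.take_append_drop, hv]
    refine (dG_le h3).trans ?_
    rw [List.length_drop]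
  have h3 := dG_triangle hgen u (u * val x (L.take i)) z
  omega

/-- The level function between two points with equal or far levels. -/
private theorem slice_far (z : G) (c : ℕ → G) (R : ℕ) {g h : G} (hg : R ≤ dG x z g)
    (hh : R ≤ dG x z h) : lev x z c R g h = 0 := by
  unfold lev
  refine Finset.sum_eq_zero fun k hk => ?_
  have hk' := Finset.mem_range.1 hk
  rw [if_neg (by omega), if_neg (by omega)]

theorem slice {ι : Type} (rel : ι → List (X × Bool)) (hgen : ∀ g : G, ∃ L, val x L = g)
    (hrel : ∀ l, val x (rel l) = 1) (r : ℕ) (hr : ∀ l, (rel l).length ≤ r) (C : ℝ)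
    (hfill : LinFill x rel C) (z u v : G) (R n : ℕ)
    (huv : dG x u z + dG x z v = dG x u v) (hu : R ≤ dG x u z) (hv : R ≤ dG x z v)
    (hc : Conn x z R n v u) (hC : 0 ≤ C) :
    (R : ℝ) * (R - 1) ≤ C * (r : ℝ) ^ 2 * (n + dG x u v) := by
  obtain ⟨L₁, hL₁, hz⟩ := exists_len hgen u z
  obtain ⟨L₂, hL₂, hv2⟩ := exists_len hgen z v
  obtain ⟨L₃, hL₃, hu3, hfar⟩ := hc
  obtain ⟨c, hcd⟩ : ∃ c : ℕ → G, c = fun k => u * val x (L₁.take (L₁.length - k)) := ⟨_, rfl⟩
  have hcz : ∀ k ≤ L₁.length, dG x u (c k) = L₁.length - k ∧ dG x (c k) z = k := by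
    intro k hk
    have h1 := slice_len hgen hL₁ hz (i := L₁.length - k) (by omega)
    rw [hcd]
    show dG x u (u * val x (L₁.take (L₁.length - k))) = _ ∧
      dG x (u * val x (L₁.take (L₁.length - k))) z = _
    refine ⟨h1.1, ?_⟩
    rw [h1.2]
    omega
  -- the three parts of the sum
  have hS1 : sumL x (lev x z c R) u L₁ = 0 := by
    rw [slice_sum]
    refine Finset.sum_eq_zero fun i hi => ?_
    have hi' := Finset.mem_range.1 hi
    have h1 := (slice_len hgen hL₁ hz (i := i) hi'.le).2
    have h2 := (slice_len hgen hL₁ hz (i := i + 1) hi').2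
    rw [dG_comm] at h1 h2
    unfold lev
    refine Finset.sum_eq_zero fun k _ => ?_
    rw [h1, h2]
    rw [if_neg (by omega)]
    by_cases hk : L₁.length - i = k + 1 ∧ L₁.length - (i + 1) = k
    · rw [if_pos hk]
      have h3 : c k = u * val x (L₁.take (i + 1)) := by
        rw [hcd]
        show u * val x (L₁.take (L₁.length - k)) = _
        have h4 : L₁.length - k = i + 1 := by omega
        rw [h4]
      rw [h3, dG_self]
      simp
    · rw [if_neg hk]
  have hS3 : sumL x (lev x z c R) v L₃ = 0 := by
    rw [slice_sum]
    refine Finset.sum_eq_zero fun i _ => ?_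
    exact slice_far z c R (hfar _ (List.take_prefix _ _)) (hfar _ (List.take_prefix _ _))
  have hS2 : sumL x (lev x z c R) z L₂ = (R : ℝ) * (R - 1) := by
    rw [slice_sum]
    have h1 : ∀ i ∈ Finset.range L₂.length,
        lev x z c R (z * val x (L₂.take i)) (z * val x (L₂.take (i + 1))) =
          if i ∈ Finset.range R then 2 * (i : ℝ) else 0 := by
      intro i hi
      have hi' := Finset.mem_range.1 hi
      have h1 := slice_len hgen hL₂ hv2 (i := i) hi'.le
      have h2 := (slice_len hgen hL₂ hv2 (i := i + 1) hi').1
      unfold lev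
      rw [h1.1, h2]
      by_cases hR : i ∈ Finset.range R
      · rw [if_pos hR, Finset.sum_eq_single i]
        · rw [if_pos ⟨rfl, rfl⟩]
          have hR' := Finset.mem_range.1 hR
          have h3 := hcz i (by omega)
          have h4 := dG_triangle hgen (c i) z (z * val x (L₂.take i))
          have h5 := dG_triangle hgen u (c i) v
          have h6 := dG_triangle hgen (c i) (z * val x (L₂.take i)) v
          have h7 : dG x (c i) (z * val x (L₂.take i)) = 2 * i := by omega
          rw [h7]
          push_cast
          ring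
        · intro k _ hk
          rw [if_neg (by omega), if_neg (by omega)]
        · intro h
          exact absurd hR h
      · rw [if_neg hR]
        refine Finset.sum_eq_zero fun k hk => ?_
        have hk' := Finset.mem_range.1 hk
        have hR' : ¬ i < R := fun h => hR (Finset.mem_range.2 h)
        rw [if_neg (by omega), if_neg (by omega)]
    rw [Finset.sum_congr rfl h1, ← Finset.sum_filter]
    have h2 : (Finset.range L₂.length).filter (fun i => i ∈ Finset.range R) =
        Finset.range R := by
      ext i
      simp only [Finset.mem_filter, Finset.mem_range]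
      omega
    rw [h2]
    have h3 : ∀ m : ℕ, ∑ i ∈ Finset.range m, 2 * (i : ℝ) = (m : ℝ) * (m - 1) := by
      intro m
      induction m with
      | zero => simp
      | succ m ih =>
        rw [Finset.sum_range_succ, ih]
        push_cast
        ring
    exact h3 R
  have hval : val x (L₁ ++ L₂ ++ L₃) = 1 := by
    have h1 : u * val x (L₁ ++ L₂ ++ L₃) = u := by
      rw [val_append, val_append, ← mul_assoc, ← mul_assoc, hz, hv2, hu3]
    exact mul_eq_left.1 h1
  have hsum : sumL x (lev x z c R) u (L₁ ++ L₂ ++ L₃) = (R : ℝ) * (R - 1) := by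
    rw [sumL_append, sumL_append, val_append, ← mul_assoc, hz, hv2, hS1, hS2, hS3]
    ring
  have hB : ∀ (g : G) (l : ι), |sumL x (lev x z c R) g (rel l)| ≤ (r : ℝ) ^ 2 := by
    intro g l
    refine (sumL_lev_le hgen z c R g (rel l) (hrel l)).trans ?_
    have h1 : ((rel l).length : ℝ) ≤ r := by exact_mod_cast hr l
    exact pow_le_pow_left₀ (Nat.cast_nonneg _) h1 2
  have h1 := hfill (lev x z c R) ((r : ℝ) ^ 2) (by positivity) (lev_antisymm z c R) hB u
    (L₁ ++ L₂ ++ L₃) hval
  rw [hsum] at h1
  refine (le_abs_self _).trans (h1.trans ?_)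
  refine mul_le_mul_of_nonneg_left ?_ (by positivity)
  have h2 : (L₁ ++ L₂ ++ L₃).length ≤ n + dG x u v := by
    rw [List.length_append, List.length_append]
    omega
  exact_mod_cast h2

end Pool.MP_ed1a61_al.Irr
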