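import Pool.Agent.Lib.MP_ed1a61_al.Irr.MetGeo

/-! # The main step for slim triangles

Let `Slim n R` hold and `R > 30 E + 1`. Let `a b y p γ₁ γ₂` be as in the definition of `Slim` and
suppose that all points of `γ₁` and of `γ₂` have distance `≥ R` from `p` (otherwise we are done).
Then `dG p a, dG p b ≥ R` (`a = γ₁ 0`, `b = γ₂ 0`).
Choose `a'` between `a` and `p` with `dG a' p = min (2R) (dG a p)` and `dG a a' + dG a' p = dG a
p`
(`exists_between`), and `b'` between `p` and `b` similarly. Then `dG a a' + dG a' b = dG a b`, the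
same for `b'`, `dG a' p + dG p b' = dG a' b' ≤ 4R`.
`a''`: if `dG a p ≤ 2R` then `a' = a` (`dG_eq_zero`), put `a'' = a = γ₁ 0`. Otherwise apply
`Slim n R` to
the point `a'` (same sides): there is `a''` on `γ₁` or on `γ₂` with `dG a' a'' ≤ R`. In both cases
`Conn p R R a' a''` (`Conn.refl`, `Conn.mono`, resp. `Conn.of_ball` as `R + R ≤ dG p a' = 2R`).
The same for `b''` (if `dG p b ≤ 2R` then `b'' = b = γ₂ 0`). `dG a'' b'' ≤ R + 4R + R = 6R`, `dG
p a'' ≤ 3R`.
CLAIM: `Conn p R (24R) a'' b''`. Then `Conn p R (26R) b' a'`, and the hypothesis `hs` (with `z =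
p`,
`u = a'`, `v = b'`; `R ≤ dG a' p` because `dG a p ≥ R`) gives `R (R-1) ≤ E (26R + 4R) = 30 E R`,
so `R - 1 ≤ 30 E`, contradiction.
Proof of the claim. (i) `a''`, `b''` on the same side `γ₁` (or `γ₂`): `Conn.of_geo`, length
`dG a'' b'' ≤ 6R`. (ii) `a'' = γ₁ i`, `b'' = γ₂ j` (the other case `a'' = γ₂ i`, `b'' = γ₁ j` is
the
same with the two geodesics exchanged; make one private lemma for two geodesics `γ₁ : a → y`,
`γ₂ : b → y`
and points on them and use it twice, `Conn.symm`). If `dG a'' y ≤ 8R`: along `γ₁` from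
`a''` to `y` (`≤ 8R`) and along `γ₂` from `y` to `b''` (`dG y b'' ≤ 8R + 6R = 14R`): `22R`.
Otherwise let
`u = γ₁ (i + 8R)` (`dG a'' u = 8R`, `dG a'' u + dG u y = dG a'' y`). Apply `Slim n R` to the
triangle with `(a, b, y, p) := (a'', y, b'', u)`, a geodesic from `a''` to `b''` (`exists_geo`)
and the part of
`γ₂` from `y` to `b''` (`Geo.sub`, `Geo.rev`: `k ↦ γ₂ (dG b y - k)`, length `dG b y - j`).
Perimeter:
`dG a'' b'' ≤ dG a'' a + dG a b + dG b b''` and `dG a a'' + dG a'' y = dG a y`, so it is at most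
`n`. (In the exchanged case `dG a'' b'' ≤ dG a'' b + dG b a + dG a b''`.) If the conclusion is a
point `q` of the geodesic from `a''` to `b''` with `dG u q ≤ R`
then `8R = dG a'' u ≤ dG a'' q + dG q u ≤ 6R + R`, impossible (`R > 0`). So there is `v = γ₂ k`,
`j ≤ k ≤ dG b y`,
with `dG u v ≤ R`. Path: along `γ₁` from `a''` to `u` (`8R`), `Conn.of_ball` from `u` to `v`
(`R`; `dG p u ≥
8R - 3R ≥ R + R`), along `γ₂` from `v` to `b''` (`dG v b'' ≤ R + 8R + 6R = 15R`): `24R`. -/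

set_option autoImplicit false

namespace Pool.MP_ed1a61_al.Irr

variable {G X : Type} [Group G] {x : X → G}

private theorem ss_two (hgen : ∀ g : G, ∃ L, val x L = g) {n R : ℕ} (hR : Slim x n R)
    (hR0 : 0 < R) {a b y p : G} {γ δ : ℕ → G} (hg : Geo x γ (dG x a y)) (h0 : γ 0 = a)
    (h1 : γ (dG x a y) = y) (hd : Geo x δ (dG x b y)) (k0 : δ 0 = b) (k1 : δ (dG x b y) = y)
    (hper : dG x a y + dG x b y + dG x a b ≤ n) (hf : ∀ i ≤ dG x a y, R ≤ dG x p (γ i))
    (hf' : ∀ i ≤ dG x b y, R ≤ dG x p (δ i)) {i j : ℕ} (hi : i ≤ dG x a y)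
    (hj : j ≤ dG x b y) (hij : dG x (γ i) (δ j) ≤ 6 * R) (hp : dG x p (γ i) ≤ 3 * R) :
    Conn x p R (24 * R) (γ i) (δ j) := by
  have e1 : dG x (γ i) y = dG x a y - i := by
    have h := hg i _ hi le_rfl
    rwa [h1] at h
  have e2 : dG x (δ j) y = dG x b y - j := by
    have h := hd j _ hj le_rfl
    rwa [k1] at h
  have e3 : dG x a (γ i) = i := by
    have h := hg 0 i (Nat.zero_le _) hi
    rwa [h0] at h
  have e4 : dG x b (δ j) = j := by
    have h := hd 0 j (Nat.zero_le _) hj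
    rwa [k0] at h
  by_cases hc : dG x a y - i ≤ 8 * R
  · have c1 := Conn.of_geo hgen hg hf hi le_rfl
    have c2 := Conn.of_geo hgen hd hf' le_rfl hj
    rw [h1] at c1
    rw [k1] at c2
    refine (c1.trans c2).mono ?_
    have t1 := dG_triangle hgen y (γ i) (δ j)
    have t2 := dG_comm (x := x) y (γ i)
    omega
  · have hi8 : i + 8 * R ≤ dG x a y := by omega
    have e5 : dG x (γ i) (γ (i + 8 * R)) = 8 * R := by
      have h := hg i (i + 8 * R) (Nat.le_add_right _ _) hi8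
      omega
    have e6 : dG x (γ (i + 8 * R)) y = dG x a y - (i + 8 * R) := by
      have h := hg (i + 8 * R) _ hi8 le_rfl
      rwa [h1] at h
    obtain ⟨σ, s1, s2, s3⟩ := exists_geo hgen (γ i) (δ j)
    have e7 : dG x y (δ j) = dG x b y - j := by rw [dG_comm, e2]
    have t1 := dG_triangle hgen (γ i) a (δ j)
    have t2 := dG_triangle hgen a b (δ j)
    have t3 := dG_comm (x := x) (γ i) a
    have hrev : Geo x (fun k => δ (dG x b y - k)) (dG x y (δ j)) := fun k l hkl hl =>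
      hd.rev k l hkl (hl.trans (by omega))
    have hS := hR (γ i) y (δ j) (γ (i + 8 * R)) σ (fun k => δ (dG x b y - k)) (by omega) s1 s2 s3
      hrev (by rw [Nat.sub_zero, k1]) (by
        show δ (dG x b y - dG x y (δ j)) = δ j
        rw [e7, Nat.sub_sub_self hj]) (by omega)
    rcases hS with ⟨q, hq, hq2⟩ | ⟨q, hq, hq2⟩
    · exfalso
      have t4 := dG_triangle hgen (γ i) (σ q) (γ (i + 8 * R))
      have t5 := s1 0 q (Nat.zero_le _) hq
      rw [s2] at t5
      have t6 := dG_comm (x := x) (γ (i + 8 * R)) (σ q)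
      omega
    · have hq2 : dG x (γ (i + 8 * R)) (δ (dG x b y - q)) ≤ R := hq2
      have c1 := Conn.of_geo hgen hg hf hi hi8
      have t4 := dG_triangle hgen (γ i) p (γ (i + 8 * R))
      have t5 := dG_comm (x := x) (γ i) p
      have c2 : Conn x p R R (γ (i + 8 * R)) (δ (dG x b y - q)) :=
        Conn.of_ball hgen hq2 (by omega)
      have c3 := Conn.of_geo hgen hd hf' (Nat.sub_le (dG x b y) q) hj
      refine ((c1.trans c2).trans c3).mono ?_
      have t6 := dG_triangle hgen (δ (dG x b y - q)) (γ (i + 8 * R)) (δ j)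
      have t7 := dG_triangle hgen (γ (i + 8 * R)) (γ i) (δ j)
      have t8 := dG_comm (x := x) (δ (dG x b y - q)) (γ (i + 8 * R))
      have t9 := dG_comm (x := x) (γ (i + 8 * R)) (γ i)
      omega

theorem slim_step (hgen : ∀ g : G, ∃ L, val x L = g) (E : ℕ)
    (hs : ∀ (z u v : G) (R n : ℕ), dG x u z + dG x z v = dG x u v → R ≤ dG x u z →
      R ≤ dG x z v → Conn x z R n v u → R * (R - 1) ≤ E * (n + dG x u v))
    (n R : ℕ) (hR : Slim x n R) (hbig : 30 * E + 1 < R) : Slim x n (R - 1) := by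
  intro a b y p γ₁ γ₂ hp hg1 h10 h1y hg2 h20 h2y hper
  by_contra hcon
  rw [not_or] at hcon
  obtain ⟨hc1, hc2⟩ := hcon
  have hR0 : 0 < R := by omega
  have hf1 : ∀ i ≤ dG x a y, R ≤ dG x p (γ₁ i) := fun i hi => by
    by_contra h
    exact hc1 ⟨i, hi, by omega⟩
  have hf2 : ∀ i ≤ dG x b y, R ≤ dG x p (γ₂ i) := fun i hi => by
    by_contra h
    exact hc2 ⟨i, hi, by omega⟩
  have hpa : R ≤ dG x p a := by
    have h := hf1 0 (Nat.zero_le _)
    rwa [h10] at h
  have hpb : R ≤ dG x p b := by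
    have h := hf2 0 (Nat.zero_le _)
    rwa [h20] at h
  have cpa := dG_comm (x := x) p a
  obtain ⟨a', ha1, ha2, ha3, a'', haS, haC, haD⟩ : ∃ a', dG x a a' + dG x a' p = dG x a p ∧
      R ≤ dG x a' p ∧ dG x a' p ≤ 2 * R ∧ ∃ a'', ((∃ i ≤ dG x a y, a'' = γ₁ i) ∨
        (∃ i ≤ dG x b y, a'' = γ₂ i)) ∧ Conn x p R R a' a'' ∧ dG x a' a'' ≤ R := by
    by_cases h : dG x a p ≤ 2 * R
    · refine ⟨a, by rw [dG_self, zero_add], by omega, h, a,
        Or.inl ⟨0, Nat.zero_le _, h10.symm⟩, (Conn.refl hpa).mono (Nat.zero_le _), ?_⟩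
      rw [dG_self]
      exact Nat.zero_le _
    · obtain ⟨w, hw1, hw2⟩ := exists_between hgen (u := a) (v := p) (k := dG x a p - 2 * R)
        (Nat.sub_le _ _)
      have hw3 : dG x w p = 2 * R := by omega
      have t1 := dG_triangle hgen a w b
      have t2 := dG_triangle hgen w p b
      have hwpc := dG_comm (x := x) p w
      have key : ∀ q, dG x w q ≤ R → Conn x p R R w q := fun q hq =>
        Conn.of_ball hgen hq (by omega)
      rcases hR a b y w γ₁ γ₂ (by omega) hg1 h10 h1y hg2 h20 h2y hper with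
        ⟨i, hi, hi2⟩ | ⟨i, hi, hi2⟩
      · exact ⟨w, by omega, by omega, by omega, γ₁ i, Or.inl ⟨i, hi, rfl⟩, key _ hi2, hi2⟩
      · exact ⟨w, by omega, by omega, by omega, γ₂ i, Or.inr ⟨i, hi, rfl⟩, key _ hi2, hi2⟩
  obtain ⟨b', hb1, hb2, hb3, b'', hbS, hbC, hbD⟩ : ∃ b', dG x p b' + dG x b' b = dG x p b ∧
      R ≤ dG x p b' ∧ dG x p b' ≤ 2 * R ∧ ∃ b'', ((∃ i ≤ dG x a y, b'' = γ₁ i) ∨
        (∃ i ≤ dG x b y, b'' = γ₂ i)) ∧ Conn x p R R b' b'' ∧ dG x b' b'' ≤ R := by
    by_cases h : dG x p b ≤ 2 * R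
    · refine ⟨b, by rw [dG_self, add_zero], hpb, h, b,
        Or.inr ⟨0, Nat.zero_le _, h20.symm⟩, (Conn.refl hpb).mono (Nat.zero_le _), ?_⟩
      rw [dG_self]
      exact Nat.zero_le _
    · obtain ⟨w, hw1, hw2⟩ := exists_between hgen (u := p) (v := b) (k := 2 * R) (by omega)
      have t1 := dG_triangle hgen a w b
      have t2 := dG_triangle hgen a p w
      have key : ∀ q, dG x w q ≤ R → Conn x p R R w q := fun q hq =>
        Conn.of_ball hgen hq (by omega)
      rcases hR a b y w γ₁ γ₂ (by omega) hg1 h10 h1y hg2 h20 h2y hper with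
        ⟨i, hi, hi2⟩ | ⟨i, hi, hi2⟩
      · exact ⟨w, by omega, by omega, by omega, γ₁ i, Or.inl ⟨i, hi, rfl⟩, key _ hi2, hi2⟩
      · exact ⟨w, by omega, by omega, by omega, γ₂ i, Or.inr ⟨i, hi, rfl⟩, key _ hi2, hi2⟩
  have hab : dG x a' p + dG x p b' = dG x a' b' := by
    have t1 := dG_triangle hgen a a' b
    have t2 := dG_triangle hgen a' b' b
    have t3 := dG_triangle hgen a' p b'
    omega
  have hD : dG x a'' b'' ≤ 6 * R := by
    have t1 := dG_triangle hgen a'' a' b''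
    have t2 := dG_triangle hgen a' b' b''
    have t3 := dG_comm (x := x) a'' a'
    omega
  have hP : dG x p a'' ≤ 3 * R := by
    have t1 := dG_triangle hgen p a' a''
    have t2 := dG_comm (x := x) p a'
    omega
  have claim : Conn x p R (24 * R) a'' b'' := by
    rcases haS with ⟨i, hi, rfl⟩ | ⟨i, hi, rfl⟩
    · rcases hbS with ⟨j, hj, rfl⟩ | ⟨j, hj, rfl⟩
      · exact (Conn.of_geo hgen hg1 hf1 hi hj).mono (by omega)
      · exact ss_two hgen hR hR0 hg1 h10 h1y hg2 h20 h2y hper hf1 hf2 hi hj hD hP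
    · rcases hbS with ⟨j, hj, rfl⟩ | ⟨j, hj, rfl⟩
      · have cab := dG_comm (x := x) a b
        exact ss_two hgen hR hR0 hg2 h20 h2y hg1 h10 h1y (by omega) hf2 hf1 hi hj hD hP
      · exact (Conn.of_geo hgen hg2 hf2 hi hj).mono (by omega)
  have hfin := hs p a' b' R (R + 24 * R + R) hab ha2 hb2 ((haC.trans claim).trans hbC.symm).symm
  have h1 : R * (R - 1) ≤ R * (30 * E) := by
    calc R * (R - 1) ≤ E * (R + 24 * R + R + dG x a' b') := hfin
      _ ≤ E * (30 * R) := Nat.mul_le_mul_left _ (by omega)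
      _ = R * (30 * E) := by ring
  have h2 := Nat.le_of_mul_le_mul_left h1 hR0
  omega

end Pool.MP_ed1a61_al.Irr
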