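import Pool.Agent.Lib.MP_ed1a61_al.Irr.Nrm
import Pool.Agent.Lib.MP_ed1a61_al.Irr.Canc

/-! # The dual function for the norm inequality

Data: words `u l` (reduced, letters in `P`), a map `ρ : G → FreeGroup X` with
`ρ (g * x y) = ρ g * of y` for the letters `y` in `P` (so `ρ (g * val L) = ρ g * mk L` for words
`L` in
letters of `P`). All subwords of length `κ + 1` of the `u l` and of their inverses are distinct.

For `h : G` let `W h = (ρ h).toWord`. Call the `i`-th edge of the arc `(l, g)` forward good if `κ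
≤ i < (u l).length` and
`((u l).drop (i - κ)).take (κ + 1)` is a suffix of `W (g * val ((u l).take (i + 1)))`, backward
good if `i + κ < (u l).length`
and `invRev (((u l).drop i).take (κ + 1))` is a suffix of `W (g * val ((u l).take i))`.
COUNT: at least `(u l).length - 2 κ` of the edges of the arc are good: with `i₀` of `toWord_take`
(for `R = ρ g`, `u = u l`) the
edges with `i ≥ i₀ + κ` are forward good and those with `i + κ < i₀` are backward good.
UNIQUENESS: the oriented edge towards the far end `h` (`h = g * val (take (i+1))` in the forward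
case,
`h = g * val (take i)` in the backward case) has as label the last letter `q` of the suffix of
length `κ + 1`; the near end is
`h * (lv x q)⁻¹`. The pair (`h`, suffix of `W h` of length `κ + 1`) determines the arc and the
index by `hd`, `hd'`, and
the direction. The unoriented edge determines `h`: the two ends `h`, `h' = h * (lv x q)⁻¹` satisfy
`W h = W h' ++ [q]` (`W h` ends with `q`, and `ρ h' = ρ h * (mk [q])⁻¹`), so `h` is the end with
the longer word; and
the suffix of `W h` is determined by `h`.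
Definition of `Θ` on the edge `e = (e.1, e.2)`: if there are `l g i` for which the `i`-th edge of
the arc `(l, g)` is
`e` (ignoring the orientation) and good, then `Θ e = s l g * (sign of the i-th letter of u l)`
(well defined by
uniqueness; use `Classical.choose`), otherwise `0`. `|Θ| ≤ 1`. The pairing of `Θ` with `chL x g (u
l)`
is the sum over `i` of (sign of letter `i`) `* Θ (i-th edge)`; multiplied by `s l g` every good
`i` contributes `1`,
every other `i` at least `-1`: total `≥ (n - 2κ) - 2κ` (if `n ≥ 2 κ`; if `n < 2κ` use that it is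
`≥ -n ≥ n - 4κ`). -/

set_option autoImplicit false

namespace Pool.MP_ed1a61_al.Irr

variable {G X ι : Type} [Group G]

/-- the edge of the letter `q` at `v` -/
private def Theta_ed (x : X → G) (v : G) (q : X × Bool) : G × X :=
  if q.2 then (v, q.1) else (v * (x q.1)⁻¹, q.1)

/-- the edge with far end `h` and label `r` -/
private def Theta_fe (x : X → G) (h : G) (r : X × Bool) : G × X :=
  if r.2 then (h * (x r.1)⁻¹, r.1) else (h, r.1)

/-- the sign of a letter -/
private def Theta_sg (q : X × Bool) : ℝ := if q.2 then 1 else -1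

private theorem Theta_sg_abs (q : X × Bool) : Theta_sg q = 1 ∨ Theta_sg q = -1 := by
  unfold Theta_sg
  split
  · exact Or.inl rfl
  · exact Or.inr rfl

private theorem Theta_ed_fe (x : X → G) (v : G) (q : X × Bool) :
    Theta_ed x v q = Theta_fe x (v * lv x q) q := by
  obtain ⟨y, b⟩ := q
  cases b
  · simp [Theta_ed, Theta_fe, lv]
  · simp [Theta_ed, Theta_fe, lv]

private theorem Theta_ed_fe' (x : X → G) (v : G) (q : X × Bool) :
    Theta_ed x v q = Theta_fe x v (q.1, !q.2) := by
  obtain ⟨y, b⟩ := q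
  cases b
  · simp [Theta_ed, Theta_fe]
  · simp [Theta_ed, Theta_fe]

private theorem Theta_lv {x : X → G} {P : X → Prop} {ρ : G → FreeGroup X}
    (hρ : ∀ g y, P y → ρ (g * x y) = ρ g * FreeGroup.of y) (g : G) (q : X × Bool)
    (hq : P q.1) : ρ (g * lv x q) = ρ g * FreeGroup.mk [q] := by
  obtain ⟨y, b⟩ := q
  cases b
  · have h1 := hρ (g * (x y)⁻¹) y hq
    rw [inv_mul_cancel_right] at h1
    have h2 : FreeGroup.mk [(y, false)] = (FreeGroup.of y)⁻¹ := by
      rw [FreeGroup.of, FreeGroup.inv_mk]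
      rfl
    have h3 : lv x (y, false) = (x y)⁻¹ := by simp [lv]
    rw [h1, h2, h3, mul_inv_cancel_right]
  · have h3 : lv x (y, true) = x y := by simp [lv]
    rw [h3]
    exact hρ g y hq

private theorem Theta_val {x : X → G} {P : X → Prop} {ρ : G → FreeGroup X}
    (hρ : ∀ g y, P y → ρ (g * x y) = ρ g * FreeGroup.of y) (L : List (X × Bool)) :
    ∀ g : G, (∀ q ∈ L, P q.1) → ρ (g * val x L) = ρ g * FreeGroup.mk L := by
  induction L with
  | nil =>
    intro g _
    rw [val_nil, mul_one, ← FreeGroup.one_eq_mk, mul_one]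
  | cons q L ih =>
    intro g hL
    have h1 : FreeGroup.mk (q :: L) = FreeGroup.mk [q] * FreeGroup.mk L := by
      rw [FreeGroup.mul_mk]
      rfl
    rw [val_cons, ← mul_assoc, ih _ fun q' h' => hL q' (List.mem_cons_of_mem _ h'),
      Theta_lv hρ g q (hL q List.mem_cons_self), h1, mul_assoc]

private theorem Theta_near [DecidableEq X] {x : X → G} {P : X → Prop} {ρ : G → FreeGroup X}
    (hρ : ∀ g y, P y → ρ (g * x y) = ρ g * FreeGroup.of y) {h : G} {r : X × Bool}
    {A : List (X × Bool)} (hr : P r.1) (hW : (ρ h).toWord = A ++ [r]) :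
    (ρ (h * (lv x r)⁻¹)).toWord = A := by
  have h1 : ρ h = FreeGroup.mk A * FreeGroup.mk [r] := by
    rw [FreeGroup.mul_mk, ← hW, FreeGroup.mk_toWord]
  have h2 : FreeGroup.mk [r] * FreeGroup.mk [(r.1, !r.2)] = 1 := by
    have h3 : FreeGroup.mk [(r.1, !r.2)] = (FreeGroup.mk [r])⁻¹ := by
      rw [FreeGroup.inv_mk]
      rfl
    rw [h3, mul_inv_cancel]
  have h4 : FreeGroup.IsReduced A := by
    have h5 : FreeGroup.IsReduced (ρ h).toWord := FreeGroup.isReduced_toWord
    rw [hW] at h5
    exact List.IsChain.left_of_append h5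
  have h6 : ρ (h * lv x (r.1, !r.2)) = ρ h * FreeGroup.mk [(r.1, !r.2)] :=
    Theta_lv hρ h (r.1, !r.2) hr
  rw [← lv_not, h6, h1, mul_assoc, h2, mul_one, FreeGroup.toWord_mk, h4.reduce_eq]

private theorem Theta_far [DecidableEq X] {x : X → G} {P : X → Prop} {ρ : G → FreeGroup X}
    (hρ : ∀ g y, P y → ρ (g * x y) = ρ g * FreeGroup.of y) {h h' : G} {r r' : X × Bool}
    {A A' : List (X × Bool)} (hr : P r.1) (hr' : P r'.1) (hW : (ρ h).toWord = A ++ [r])
    (hW' : (ρ h').toWord = A' ++ [r']) (he : Theta_fe x h r = Theta_fe x h' r') :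
    h = h' ∧ r = r' := by
  have n1 := Theta_near hρ hr hW
  have n2 := Theta_near hρ hr' hW'
  obtain ⟨y, b⟩ := r
  obtain ⟨y', b'⟩ := r'
  cases b <;> cases b'
  · simp only [Theta_fe, Bool.false_eq_true, if_false, Prod.mk.injEq] at he
    obtain ⟨rfl, rfl⟩ := he
    exact ⟨rfl, rfl⟩
  · simp only [Theta_fe, Bool.false_eq_true, if_false, if_true, Prod.mk.injEq] at he
    obtain ⟨h1, h2⟩ := he
    subst h2
    exfalso
    have e1 : lv x (y, true) = x y := by simp [lv]
    have e2 : lv x (y, false) = (x y)⁻¹ := by simp [lv]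
    have h3 : h * x y = h' := by rw [h1, inv_mul_cancel_right]
    rw [e1, ← h1, hW] at n2
    rw [e2, inv_inv, h3, hW'] at n1
    have l1 := congrArg List.length n1
    have l2 := congrArg List.length n2
    simp only [List.length_append, List.length_singleton] at l1 l2
    omega
  · simp only [Theta_fe, Bool.false_eq_true, if_false, if_true, Prod.mk.injEq] at he
    obtain ⟨h1, h2⟩ := he
    subst h2
    exfalso
    have e1 : lv x (y, true) = x y := by simp [lv]
    have e2 : lv x (y, false) = (x y)⁻¹ := by simp [lv]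
    have h3 : h' * x y = h := by rw [← h1, inv_mul_cancel_right]
    rw [e1, h1, hW'] at n1
    rw [e2, inv_inv, h3, hW] at n2
    have l1 := congrArg List.length n1
    have l2 := congrArg List.length n2
    simp only [List.length_append, List.length_singleton] at l1 l2
    omega
  · simp only [Theta_fe, if_true, Prod.mk.injEq] at he
    obtain ⟨h1, h2⟩ := he
    subst h2
    exact ⟨mul_right_cancel h1, rfl⟩

/-- forward good edges -/
private def Theta_fw [DecidableEq X] (x : X → G) (ρ : G → FreeGroup X)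
    (u : ι → List (X × Bool)) (κ : ℕ) (l : ι) (g : G) (i : ℕ) : Prop :=
  κ ≤ i ∧ i < (u l).length ∧
    ((u l).drop (i - κ)).take (κ + 1) <:+ (ρ (g * val x ((u l).take (i + 1)))).toWord

/-- backward good edges -/
private def Theta_bw [DecidableEq X] (x : X → G) (ρ : G → FreeGroup X)
    (u : ι → List (X × Bool)) (κ : ℕ) (l : ι) (g : G) (i : ℕ) : Prop :=
  i + κ < (u l).length ∧
    FreeGroup.invRev (((u l).drop i).take (κ + 1)) <:+ (ρ (g * val x ((u l).take i))).toWord

private theorem Theta_rec [DecidableEq X] {x : X → G} {P : X → Prop} {ρ : G → FreeGroup X}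
    {u : ι → List (X × Bool)} {κ : ℕ} (hP : ∀ l, ∀ q ∈ u l, P q.1) {l : ι} {g : G} {i : ℕ}
    {q : X × Bool} (hq : (u l)[i]? = some q)
    (hG : Theta_fw x ρ u κ l g i ∨ Theta_bw x ρ u κ l g i) :
    ∃ (h : G) (S A : List (X × Bool)) (r : X × Bool),
      Theta_ed x (g * val x ((u l).take i)) q = Theta_fe x h r ∧ S.length = κ + 1 ∧
      S <:+ (ρ h).toWord ∧ (ρ h).toWord = A ++ [r] ∧ P r.1 ∧
      ((κ ≤ i ∧ i < (u l).length ∧ S = ((u l).drop (i - κ)).take (κ + 1) ∧
        h = g * val x ((u l).take (i + 1))) ∨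
      (i + κ < (u l).length ∧ S = FreeGroup.invRev (((u l).drop i).take (κ + 1)) ∧
        h = g * val x ((u l).take i))) := by
  have hqP : P q.1 := hP l q (List.mem_of_getElem? hq)
  rcases hG with ⟨h1, h2, h3⟩ | ⟨h1, h2⟩
  · have hS : ((u l).drop (i - κ)).take (κ + 1) = ((u l).drop (i - κ)).take κ ++ [q] := by
      rw [List.take_add_one, List.getElem?_drop, Nat.sub_add_cancel h1, hq]
      rfl
    obtain ⟨B, hB⟩ := h3
    refine ⟨g * val x ((u l).take (i + 1)), ((u l).drop (i - κ)).take (κ + 1),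
      B ++ ((u l).drop (i - κ)).take κ, q, ?_, ?_, ⟨B, hB⟩, ?_, hqP,
      Or.inl ⟨h1, h2, rfl, rfl⟩⟩
    · have e1 : (u l).take (i + 1) = (u l).take i ++ [q] := by
        rw [List.take_add_one, hq]
        rfl
      rw [Theta_ed_fe, e1, val_append, val_cons, val_nil, mul_one, mul_assoc]
    · rw [List.length_take, List.length_drop]
      omega
    · rw [← hB, hS, List.append_assoc]
  · have hil : i < (u l).length := by omega
    have hD : (u l).drop i = q :: (u l).drop (i + 1) := by
      rw [List.drop_eq_getElem_cons hil]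
      congr 1
      rw [List.getElem?_eq_getElem hil] at hq
      exact Option.some_injective _ hq
    have hS : FreeGroup.invRev (((u l).drop i).take (κ + 1)) =
        FreeGroup.invRev (((u l).drop (i + 1)).take κ) ++ [(q.1, !q.2)] := by
      rw [hD, List.take_succ_cons]
      simp [FreeGroup.invRev]
    obtain ⟨B, hB⟩ := h2
    refine ⟨g * val x ((u l).take i), FreeGroup.invRev (((u l).drop i).take (κ + 1)),
      B ++ FreeGroup.invRev (((u l).drop (i + 1)).take κ), (q.1, !q.2), ?_, ?_, ⟨B, hB⟩, ?_,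
      hqP, Or.inr ⟨h1, rfl, rfl⟩⟩
    · exact Theta_ed_fe' x _ q
    · rw [FreeGroup.invRev_length, List.length_take, List.length_drop]
      omega
    · rw [← hB, hS, List.append_assoc]

private theorem Theta_suffix {S S' W : List (X × Bool)} (h : S <:+ W) (h' : S' <:+ W)
    (hl : S.length = S'.length) : S = S' :=
  (List.suffix_of_suffix_length_le h h' hl.le).eq_of_length hl

private theorem Theta_uniq [DecidableEq X] {x : X → G} {P : X → Prop} {ρ : G → FreeGroup X}
    (hρ : ∀ g y, P y → ρ (g * x y) = ρ g * FreeGroup.of y)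
    {u : ι → List (X × Bool)} {κ : ℕ} (hP : ∀ l, ∀ q ∈ u l, P q.1)
    (hd : ∀ l l' i i', i + κ < (u l).length → i' + κ < (u l').length →
      ((u l).drop i).take (κ + 1) = ((u l').drop i').take (κ + 1) → l = l' ∧ i = i')
    (hd' : ∀ l l' i i', i + κ < (u l).length → i' + κ < (u l').length →
      ((u l).drop i).take (κ + 1) ≠ FreeGroup.invRev (((u l').drop i').take (κ + 1)))
    {l l' : ι} {g g' : G} {i i' : ℕ} {q q' : X × Bool} (hq : (u l)[i]? = some q)
    (hq' : (u l')[i']? = some q')
    (hG : Theta_fw x ρ u κ l g i ∨ Theta_bw x ρ u κ l g i)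
    (hG' : Theta_fw x ρ u κ l' g' i' ∨ Theta_bw x ρ u κ l' g' i')
    (he : Theta_ed x (g * val x ((u l).take i)) q = Theta_ed x (g' * val x ((u l').take i')) q') :
    l = l' ∧ g = g' ∧ q = q' := by
  obtain ⟨h, S, A, r, e1, e2, e3, e4, e5, e6⟩ := Theta_rec hP hq hG
  obtain ⟨h', S', A', r', f1, f2, f3, f4, f5, f6⟩ := Theta_rec hP hq' hG'
  obtain ⟨hh, -⟩ := Theta_far hρ e5 f5 e4 f4 (by rw [← e1, ← f1, he])
  subst hh
  have hS : S = S' := Theta_suffix e3 f3 (e2.trans f2.symm)
  have key : l = l' ∧ i = i' ∧ g = g' := by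
    rcases e6 with ⟨a1, a2, a3, a4⟩ | ⟨a1, a3, a4⟩
    · rcases f6 with ⟨b1, b2, b3, b4⟩ | ⟨b1, b3, b4⟩
      · obtain ⟨c1, c2⟩ := hd l l' (i - κ) (i' - κ) (by omega) (by omega)
          (by rw [← a3, ← b3, hS])
        subst c1
        have c3 : i = i' := by omega
        subst c3
        exact ⟨rfl, rfl, mul_right_cancel (a4.symm.trans b4)⟩
      · exact absurd (by rw [← a3, ← b3, hS]) (hd' l l' (i - κ) i' (by omega) b1)
    · rcases f6 with ⟨b1, b2, b3, b4⟩ | ⟨b1, b3, b4⟩
      · exact absurd (by rw [← a3, ← b3, hS]) (hd' l' l (i' - κ) i (by omega) a1)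
      · have c0 : FreeGroup.invRev (((u l).drop i).take (κ + 1)) =
            FreeGroup.invRev (((u l').drop i').take (κ + 1)) := by rw [← a3, ← b3, hS]
        obtain ⟨c1, c2⟩ := hd l l' i i' a1 b1 (FreeGroup.invRev_injective c0)
        subst c1
        subst c2
        exact ⟨rfl, rfl, mul_right_cancel (a4.symm.trans b4)⟩
  obtain ⟨k1, k2, k3⟩ := key
  subst k1
  subst k2
  exact ⟨rfl, k3, Option.some_injective _ (hq.symm.trans hq')⟩

private theorem Theta_pr (x : X → G) (Θ : G × X → ℝ) (L : List (X × Bool)) : ∀ g : G,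
    pr Θ (chL x g L) = ∑ i : Fin L.length,
      Theta_sg (L.get i) * Θ (Theta_ed x (g * val x (L.take i)) (L.get i)) := by
  induction L with
  | nil =>
    intro g
    have h1 : chL x g [] = 0 := rfl
    have h2 : pr Θ (0 : G × X →₀ ℝ) = 0 := Finsupp.sum_zero_index
    rw [h1, h2]
    exact Finset.sum_empty.symm
  | cons q L ih =>
    intro g
    have h1 : chL x g (q :: L) = (if q.2 then Finsupp.single (g, q.1) 1
      else - Finsupp.single (g * (x q.1)⁻¹, q.1) 1) + chL x (g * lv x q) L := rfl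
    have h2 : pr Θ (if q.2 then Finsupp.single (g, q.1) 1
        else - Finsupp.single (g * (x q.1)⁻¹, q.1) 1) = Theta_sg q * Θ (Theta_ed x g q) := by
      unfold Theta_sg Theta_ed
      split
      · rw [pr_single]
      · rw [pr_neg, pr_single, neg_mul]
    rw [h1, pr_add, h2, ih]
    refine (congrArg₂ (· + ·) ?_ ?_).trans (Fin.sum_univ_succ (n := L.length) (fun i =>
      Theta_sg ((q :: L).get i) * Θ (Theta_ed x (g * val x ((q :: L).take i))
        ((q :: L).get i)))).symm
    · show _ = Theta_sg q * Θ (Theta_ed x (g * val x []) q)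
      rw [val_nil, mul_one]
    · refine Finset.sum_congr rfl fun i _ => ?_
      show _ = Theta_sg (L.get i) * Θ (Theta_ed x (g * val x (q :: L.take i)) (L.get i))
      rw [val_cons, mul_assoc]

private theorem Theta_good [DecidableEq X] {x : X → G} {P : X → Prop} {ρ : G → FreeGroup X}
    (hρ : ∀ g y, P y → ρ (g * x y) = ρ g * FreeGroup.of y)
    {u : ι → List (X × Bool)} (κ : ℕ) (hP : ∀ l, ∀ q ∈ u l, P q.1)
    (hred : ∀ l, FreeGroup.IsReduced (u l)) (l : ι) (g : G) :
    ∃ i₀ : ℕ, ∀ i < (u l).length, i < i₀ - κ ∨ i₀ + κ ≤ i →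
      Theta_fw x ρ u κ l g i ∨ Theta_bw x ρ u κ l g i := by
  obtain ⟨i₀, h0, h1, h2⟩ := toWord_take (ρ g) (u l) (hred l)
  have hv : ∀ j, ρ (g * val x ((u l).take j)) = ρ g * FreeGroup.mk ((u l).take j) := fun j =>
    Theta_val hρ _ g fun q hq => hP l q (List.mem_of_mem_take hq)
  refine ⟨i₀, fun i hi hor => ?_⟩
  rcases hor with h | h
  · right
    refine ⟨by omega, ?_⟩
    rw [hv]
    refine List.IsSuffix.trans ?_ (h2 i (by omega))
    rw [List.drop_take]
    have e1 : ((u l).drop i).take (κ + 1) <+: ((u l).drop i).take (i₀ - i) :=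
      List.take_prefix_take_left (by omega)
    obtain ⟨M, hM⟩ := e1
    rw [← hM, FreeGroup.invRev_append]
    exact List.suffix_append _ _
  · left
    refine ⟨by omega, hi, ?_⟩
    rw [hv]
    refine List.IsSuffix.trans ?_ (h1 (i + 1) (by omega) (by omega))
    have e1 : ((u l).drop (i - κ)).take (κ + 1) = ((u l).take (i + 1)).drop (i - κ) := by
      rw [List.drop_take]
      congr 1
      omega
    have e2 : i - κ = i₀ + (i - κ - i₀) := by omega
    rw [e1, e2, ← List.drop_drop]
    exact List.drop_suffix _ _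

theorem exists_theta (x : X → G) (P : X → Prop) (ρ : G → FreeGroup X)
    (hρ : ∀ g y, P y → ρ (g * x y) = ρ g * FreeGroup.of y)
    (u : ι → List (X × Bool)) (κ : ℕ) (hP : ∀ l, ∀ q ∈ u l, P q.1)
    (hred : ∀ l, FreeGroup.IsReduced (u l))
    (hd : ∀ l l' i i', i + κ < (u l).length → i' + κ < (u l').length →
      ((u l).drop i).take (κ + 1) = ((u l').drop i').take (κ + 1) → l = l' ∧ i = i')
    (hd' : ∀ l l' i i', i + κ < (u l).length → i' + κ < (u l').length →
      ((u l).drop i).take (κ + 1) ≠ FreeGroup.invRev (((u l').drop i').take (κ + 1)))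
    (s : ι → G → ℝ) (hs : ∀ l g, s l g = 1 ∨ s l g = -1) :
    ∃ Θ : G × X → ℝ, (∀ e, |Θ e| ≤ 1) ∧
      ∀ l g, ((u l).length : ℝ) - 4 * κ ≤ s l g * pr Θ (chL x g (u l)) := by
  classical
  let Gd : G × X → ι × G × ℕ × (X × Bool) → Prop := fun e t =>
    (u t.1)[t.2.2.1]? = some t.2.2.2 ∧
    (Theta_fw x ρ u κ t.1 t.2.1 t.2.2.1 ∨ Theta_bw x ρ u κ t.1 t.2.1 t.2.2.1) ∧
    Theta_ed x (t.2.1 * val x ((u t.1).take t.2.2.1)) t.2.2.2 = e
  let Θ : G × X → ℝ := fun e => if h : ∃ t, Gd e t then
    s (Classical.choose h).1 (Classical.choose h).2.1 * Theta_sg (Classical.choose h).2.2.2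
    else 0
  have hΘ1 : ∀ e, |Θ e| ≤ 1 := by
    intro e
    by_cases h : ∃ t, Gd e t
    · have e1 : Θ e = s (Classical.choose h).1 (Classical.choose h).2.1 *
          Theta_sg (Classical.choose h).2.2.2 := dif_pos h
      rw [e1]
      rcases hs (Classical.choose h).1 (Classical.choose h).2.1 with h1 | h1 <;>
      rcases Theta_sg_abs (Classical.choose h).2.2.2 with h2 | h2 <;>
      rw [h1, h2] <;> norm_num
    · have e1 : Θ e = 0 := dif_neg h
      rw [e1, abs_zero]
      exact zero_le_one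
  have hΘ2 : ∀ e t, Gd e t → Θ e = s t.1 t.2.1 * Theta_sg t.2.2.2 := by
    intro e t ht
    have h : ∃ t, Gd e t := ⟨t, ht⟩
    have e1 : Θ e = s (Classical.choose h).1 (Classical.choose h).2.1 *
        Theta_sg (Classical.choose h).2.2.2 := dif_pos h
    obtain ⟨a1, a2, a3⟩ := Classical.choose_spec h
    obtain ⟨b1, b2, b3⟩ := ht
    obtain ⟨c1, c2, c3⟩ := Theta_uniq hρ hP hd hd' a1 b1 a2 b2 (a3.trans b3.symm)
    rw [e1, c1, c2, c3]
  refine ⟨Θ, hΘ1, fun l g => ?_⟩
  obtain ⟨i₀, hi₀⟩ := Theta_good hρ κ hP hred l g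
  rw [Theta_pr, Finset.mul_sum]
  let bad : Finset (Fin (u l).length) :=
    Finset.univ.filter fun i => ¬ ((i : ℕ) < i₀ - κ ∨ i₀ + κ ≤ (i : ℕ))
  have hbad : bad.card ≤ 2 * κ := by
    have h1 : bad.card ≤ (Finset.Ico (i₀ - κ) (i₀ + κ)).card := by
      refine Finset.card_le_card_of_injOn (fun i : Fin (u l).length => (i : ℕ)) ?_
        (Fin.val_injective.injOn)
      intro i hi
      have h2 := (Finset.mem_filter.1 hi).2
      rw [Finset.coe_Ico]
      show (i : ℕ) ∈ Set.Ico (i₀ - κ) (i₀ + κ)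
      rw [Set.mem_Ico]
      omega
    rw [Nat.card_Ico] at h1
    omega
  have hterm : ∀ i : Fin (u l).length, 1 - 2 * (if i ∈ bad then (1 : ℝ) else 0) ≤
      s l g * (Theta_sg ((u l).get i) *
        Θ (Theta_ed x (g * val x ((u l).take i)) ((u l).get i))) := by
    intro i
    have hq : (u l)[(i : ℕ)]? = some ((u l).get i) := List.getElem?_eq_getElem i.2
    by_cases hi : i ∈ bad
    · rw [if_pos hi]
      have h1 := abs_le.1 (hΘ1 (Theta_ed x (g * val x ((u l).take i)) ((u l).get i)))
      rcases hs l g with h2 | h2 <;> rcases Theta_sg_abs ((u l).get i) with h3 | h3 <;>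
      rw [h2, h3] <;> linarith [h1.1, h1.2]
    · rw [if_neg hi]
      have h1 : (i : ℕ) < i₀ - κ ∨ i₀ + κ ≤ (i : ℕ) := by
        by_contra hcon
        exact hi (Finset.mem_filter.2 ⟨Finset.mem_univ _, hcon⟩)
      have h2 := hΘ2 (Theta_ed x (g * val x ((u l).take i)) ((u l).get i))
        (l, g, i, (u l).get i) ⟨hq, hi₀ i i.2 h1, rfl⟩
      rw [h2]
      rcases hs l g with h2 | h2 <;> rcases Theta_sg_abs ((u l).get i) with h3 | h3 <;>
      simp only [h2, h3] <;> norm_num
  have hsum := Finset.sum_le_sum fun (i : Fin (u l).length) (_ : i ∈ Finset.univ) => hterm i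
  refine le_trans ?_ hsum
  rw [Finset.sum_sub_distrib, ← Finset.mul_sum, Finset.sum_ite_mem, Finset.univ_inter,
    Finset.sum_const, Finset.sum_const, Finset.card_univ, Fintype.card_fin, nsmul_eq_mul,
    nsmul_eq_mul, mul_one, mul_one]
  have h1 : (bad.card : ℝ) ≤ 2 * κ := by exact_mod_cast hbad
  linarith

end Pool.MP_ed1a61_al.Irr
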